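import Pool.Agent.H16.VA.Exist

/-!
# Associativity and the commutator formula
-/

set_option autoImplicit false

open Finset

namespace Pool.Agent.H16.VA

/-- AS -/
theorem assoc : AssocStmt := by
  intro V _ _ W u v n
  have hF : ∀ w, ∃ c, (∃ w', c = W.Y w') ∧ (∀ n, 0 ≤ n → c n W.vac = 0) ∧ c (-1) W.vac = w :=
    fun w => ⟨W.Y w, ⟨w, rfl⟩, W.creat_nonneg w, W.creat w⟩
  have hp := prodF_isFld (W.Y u) (W.Y v) (W.trunc u) (W.trunc v) n
  have hpT : TCov W.T (prodF (W.Y u) (W.Y v) (W.trunc u) (W.trunc v) n) :=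
    prodF_TCov (W.trunc u) (W.trunc v) (W.T_comm u) (W.T_comm v) n
  set b := W.Y (W.Y u n v) + (-1 : ℂ) • prodF (W.Y u) (W.Y v) (W.trunc u) (W.trunc v) n with hb
  have h1 : b = 0 := by
    apply goddard (F := fun c => ∃ w', c = W.Y w') hF (T := W.T) (vac := W.vac)
    · intro m w
      have e1 := W.T_comm (W.Y u n v) m w
      have e2 := hpT m w
      change W.T (W.Y (W.Y u n v) m w +
        (-1 : ℂ) • prodF (W.Y u) (W.Y v) (W.trunc u) (W.trunc v) n m w) -
        (W.Y (W.Y u n v) m (W.T w) +
        (-1 : ℂ) • prodF (W.Y u) (W.Y v) (W.trunc u) (W.trunc v) n m (W.T w)) =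
        (-m) • (W.Y (W.Y u n v) (m - 1) w +
        (-1 : ℂ) • prodF (W.Y u) (W.Y v) (W.trunc u) (W.trunc v) n (m - 1) w)
      rw [map_add, map_smul, smul_add, smul_comm (-m) (-1 : ℂ), ← e1, ← e2, smul_sub]
      abel
    · exact W.T_vac
    · exact isFld_add (W.trunc _) (isFld_smul _ hp)
    · rintro c ⟨w, rfl⟩
      exact W.trunc w
    · rintro c ⟨w, rfl⟩
      refine Loc.add_right (W.trunc w) (W.trunc _) (isFld_smul _ hp) (W.loc _ _) ?_
      apply Loc.smul_right
      exact (dong (W.trunc u) (W.trunc v) (W.trunc w) (W.loc u v) (W.loc u w) (W.loc v w) n).symm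
        hp (W.trunc w)
    · intro m hm
      change W.Y (W.Y u n v) m W.vac +
        (-1 : ℂ) • prodF (W.Y u) (W.Y v) (W.trunc u) (W.trunc v) n m W.vac = 0
      rw [W.creat_nonneg _ _ hm, prodF_vac (W.trunc u) (W.trunc v) (W.creat_nonneg u)
        (W.creat_nonneg v) n m hm, smul_zero, add_zero]
    · change W.Y (W.Y u n v) (-1) W.vac +
        (-1 : ℂ) • prodF (W.Y u) (W.Y v) (W.trunc u) (W.trunc v) n (-1) W.vac = 0
      rw [W.creat, prodF_vac_neg_one (W.trunc u) (W.trunc v) (W.creat_nonneg u)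
        (W.creat_nonneg v) n, W.creat, neg_smul, one_smul, add_neg_cancel]
  rw [hb, neg_smul, one_smul, ← sub_eq_add_neg, sub_eq_zero] at h1
  exact h1

theorem brA_expand {V : Type*} [AddCommGroup V] [Module ℂ V] {a b : Fld V} (ha : IsFld a)
    (hb : IsFld b) {N : ℕ} (hN : LocN N a b) (d : ℕ) (m k : ℤ) (w : V) :
    brA a b (N - d) m k w =
      ∑ᶠ j : ℕ, (Ring.choose m j : ℤ) • brA a b (N - d + j) 0 (m + k - j) w := by
  induction d generalizing m k with
  | zero =>
    rw [brA_eq_zero_of_le ha hb hN _ (by simp), S_eq 0]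
    · simp
    · intro j _
      rw [brA_eq_zero_of_le ha hb hN _ (by simp), smul_zero]
  | succ d ih =>
    set n : ℤ := (N : ℤ) - ((d + 1 : ℕ) : ℤ) with hn
    have hn1 : (N : ℤ) - d = n + 1 := by rw [hn]; push_cast; ring
    have hz : ∀ (j : ℕ), d + 1 ≤ j → ∀ m k, brA a b (n + j) m k w = 0 := by
      intro j hj m k
      exact brA_eq_zero_of_le ha hb hN _ (by rw [hn]; push_cast; omega) m k w
    set g : ℤ → ℤ → V := fun m k =>
      ∑ᶠ j : ℕ, (Ring.choose m j : ℤ) • brA a b (n + j) 0 (m + k - j) w with hg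
    have hgs : ∀ m k, g (m + 1) k - g m (k + 1) = brA a b (n + 1) m k w := by
      intro m k
      have i1 := ih m k
      rw [hn1] at i1
      rw [i1]
      simp only [hg]
      rw [S_succ ⟨d + 1, fun j hj => by rw [hz j hj, smul_zero]⟩,
        S_succ (f := fun j : ℕ => (Ring.choose m j : ℤ) • brA a b (n + j) 0 (m + (k + 1) - j) w)
        ⟨d + 1, fun j hj => by rw [hz j hj, smul_zero]⟩]
      rw [S_eq (d + 1), S_eq (d + 1), S_eq (d + 1)]
      · simp only [Ring.choose_zero_right]
        have e1 : m + 1 + k - ((0 : ℕ) : ℤ) = m + (k + 1) - ((0 : ℕ) : ℤ) := by ring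
        rw [e1, add_sub_add_left_eq_sub, ← Finset.sum_sub_distrib]
        apply Finset.sum_congr rfl
        intro j _
        have e2 : m + 1 + k - ((j + 1 : ℕ) : ℤ) = m + k - j := by push_cast; ring
        have e3 : m + (k + 1) - ((j + 1 : ℕ) : ℤ) = m + k - j := by push_cast; ring
        have e4 : n + ((j + 1 : ℕ) : ℤ) = n + 1 + j := by push_cast; ring
        rw [e2, e3, e4, ← sub_smul, Ring.choose_succ_succ]
        congr 1
        ring
      · intro j hj
        have e4 : n + 1 + (j : ℤ) = n + ((j + 1 : ℕ) : ℤ) := by push_cast; ring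
        rw [e4, hz _ (by omega), smul_zero]
      · intro j hj
        rw [hz _ (by omega), smul_zero]
      · intro j hj
        rw [hz _ (by omega), smul_zero]
    have hfs : ∀ m k, brA a b n (m + 1) k w - brA a b n m (k + 1) w = brA a b (n + 1) m k w :=
      fun m k => (brA_succ ha hb n m k w).symm
    have h0 : ∀ k, brA a b n 0 k w = g 0 k := by
      intro k
      simp only [hg]
      rw [S_eq 1]
      · simp
      · intro j hj
        obtain ⟨i, rfl⟩ : ∃ i, j = i + 1 := ⟨j - 1, by omega⟩
        rw [Ring.choose_zero_succ, zero_smul]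
    have hall : ∀ m k, brA a b n m k w = g m k := by
      intro m
      induction m using Int.induction_on with
      | zero => exact h0
      | succ i ih2 =>
        intro k
        have e1 := hgs i k
        have e2 := hfs i k
        rw [ih2] at e2
        rw [sub_eq_iff_eq_add] at e1 e2
        rw [e1, e2]
      | pred i ih2 =>
        intro k
        have e1 := hgs (-(i : ℤ) - 1) (k - 1)
        have e2 := hfs (-(i : ℤ) - 1) (k - 1)
        have e3 : -(i : ℤ) - 1 + 1 = -i := by ring
        have e4 : k - 1 + 1 = k := by ring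
        rw [e3, e4] at e1 e2
        rw [ih2, ← e1] at e2
        exact sub_right_injective e2
    exact hall m k

/-- CF -/
theorem comm_formula : CommStmt := by
  intro V _ _ W u v w m k
  obtain ⟨N, hN⟩ := W.loc u v
  have h1 := brA_expand (W.trunc u) (W.trunc v) hN N m k w
  rw [sub_self, brA_zero] at h1
  rw [h1]
  congr 1
  funext j
  rw [assoc V W u v j, prodF_apply, zero_add]

end Pool.Agent.H16.VA
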