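import Pool.Agent.H16.VA.Targets

/-!
# Translation covariance and creation for products of fields
-/

set_option autoImplicit false

open Finset

namespace Pool.Agent.H16.VA

variable {V : Type*} [AddCommGroup V] [Module ℂ V]

theorem choose_step (n : ℤ) (j : ℕ) :
    ((-1 : ℤ) ^ (j + 1) * Ring.choose n (j + 1)) * ((j : ℤ) + 1) =
      -(((-1 : ℤ) ^ j * Ring.choose n j) * (n - j)) := by
  have h := Ring.choose_smul_choose n (Nat.le_succ j)
  rw [Nat.succ_eq_add_one, Nat.choose_succ_self_right, show j + 1 - j = 1 by omega,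
    Ring.choose_one_right, nsmul_eq_mul] at h
  push_cast at h
  rw [pow_succ]
  linear_combination (-(-1 : ℤ) ^ j) * h

theorem P1_T {T : Module.End ℂ V} {a b : Fld V} (hb : IsFld b) (ta : TCov T a) (tb : TCov T b)
    (n m k : ℤ) (w : V) : T (P1 a b n m k w) - P1 a b n m k (T w) =
      (-m : ℤ) • P1 a b n (m - 1) k w + (-k : ℤ) • P1 a b n m (k - 1) w := by
  have f1 := P1_fin (a := a) hb n m k w
  have f2 := P1_fin (a := a) hb n m k (T w)
  have f3 := P1_fin (a := a) hb n (m - 1) k w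
  have f4 := P1_fin (a := a) hb n m (k - 1) w
  obtain ⟨N1, h1⟩ := f1
  obtain ⟨N2, h2⟩ := f2
  obtain ⟨N3, h3⟩ := f3
  obtain ⟨N4, h4⟩ := f4
  obtain ⟨N5, h5⟩ := hb w
  set N := max (max N1 N2) (max (max N3 N4) (N5 - k).toNat) with hN
  have g1 : ∀ j, N + 1 ≤ j → N1 ≤ j := fun j hj => by omega
  have g2 : ∀ j, N + 1 ≤ j → N2 ≤ j := fun j hj => by omega
  have g3 : ∀ j, N + 1 ≤ j → N3 ≤ j := fun j hj => by omega
  have g4 : ∀ j, N + 1 ≤ j → N4 ≤ j := fun j hj => by omega
  unfold P1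
  rw [S_eq (N + 1) (fun j hj => h1 j (g1 j hj)), S_eq (N + 1) (fun j hj => h2 j (g2 j hj)),
    S_eq (N + 1) (fun j hj => h3 j (g3 j hj)), S_eq (N + 1) (fun j hj => h4 j (g4 j hj))]
  rw [map_sum, ← Finset.sum_sub_distrib, Finset.smul_sum, Finset.smul_sum,
    ← Finset.sum_add_distrib, ← sub_eq_zero, ← Finset.sum_sub_distrib]
  set u : ℕ → V := fun j => a (m + n - 1 - j) (b (k + j) w) with hu
  have key : ∀ j : ℕ, T (((-1 : ℤ) ^ j * Ring.choose n j) • a (m + n - j) (b (k + j) w)) -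
      ((-1 : ℤ) ^ j * Ring.choose n j) • a (m + n - j) (b (k + j) (T w)) -
      ((-m : ℤ) • ((-1 : ℤ) ^ j * Ring.choose n j) • a (m - 1 + n - j) (b (k + j) w) +
       (-k : ℤ) • ((-1 : ℤ) ^ j * Ring.choose n j) • a (m + n - j) (b (k - 1 + j) w)) =
      -((((-1 : ℤ) ^ j * Ring.choose n j) * (n - j)) • u j) -
      ((((-1 : ℤ) ^ j * Ring.choose n j) * j) • a (m + n - j) (b (k - 1 + j) w)) := by
    intro j
    have e1 := ta (m + n - j) (b (k + j) w)
    have e2 := tb (k + j) w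
    rw [map_zsmul]
    rw [sub_eq_iff_eq_add] at e1 e2
    rw [e1, e2, map_add, map_zsmul]
    have e3 : m + n - (j : ℤ) - 1 = m + n - 1 - j := by ring
    have e4 : m - 1 + n - (j : ℤ) = m + n - 1 - j := by ring
    have e5 : k + (j : ℤ) - 1 = k - 1 + j := by ring
    rw [e3, e4, e5]
    simp only [hu]
    module
  rw [Finset.sum_congr rfl fun j _ => key j]
  rw [Finset.sum_sub_distrib, Finset.sum_neg_distrib]
  have e6 : ∑ j ∈ range (N + 1), (((-1 : ℤ) ^ j * Ring.choose n j) * (n - j)) • u j =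
      ∑ j ∈ range N, (((-1 : ℤ) ^ j * Ring.choose n j) * (n - j)) • u j := by
    rw [Finset.sum_range_succ]
    have : u N = 0 := by
      simp only [hu]
      rw [h5 (k + N) (by omega), map_zero]
    rw [this, smul_zero, add_zero]
  have e7 : ∑ j ∈ range (N + 1), (((-1 : ℤ) ^ j * Ring.choose n j) * j) •
      a (m + n - j) (b (k - 1 + j) w) =
      ∑ j ∈ range N, -((((-1 : ℤ) ^ j * Ring.choose n j) * (n - j)) • u j) := by
    rw [Finset.sum_range_succ']
    have e8 : (((-1 : ℤ) ^ 0 * Ring.choose n 0) * ((0 : ℕ) : ℤ)) •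
        a (m + n - ((0 : ℕ) : ℤ)) (b (k - 1 + ((0 : ℕ) : ℤ)) w) = 0 := by
      rw [Nat.cast_zero, mul_zero, zero_smul]
    rw [e8, add_zero]
    apply Finset.sum_congr rfl
    intro j _
    have e9 := choose_step n j
    push_cast
    rw [e9, neg_smul]
    simp only [hu]
    have e10 : m + n - ((j : ℤ) + 1) = m + n - 1 - j := by ring
    have e11 : k - 1 + ((j : ℤ) + 1) = k + j := by ring
    rw [e10, e11]
  rw [e6, e7, Finset.sum_neg_distrib]
  abel

theorem prodF_TCov {T : Module.End ℂ V} {a b : Fld V} (ha : IsFld a) (hb : IsFld b)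
    (ta : TCov T a) (tb : TCov T b) (n : ℤ) : TCov T (prodF a b ha hb n) := by
  intro k w
  simp only [prodF_apply]
  unfold brA
  have h1 := P1_T hb ta tb n 0 k w
  have h2 := P1_T ha tb ta n k 0 w
  rw [neg_zero, zero_smul, zero_add] at h1
  rw [neg_zero, zero_smul, add_zero] at h2
  rw [map_sub, map_zsmul, smul_sub, ← h1, smul_comm, ← h2, smul_sub]
  abel

theorem prodF_vac {vac : V} {a b : Fld V} (ha : IsFld a) (hb : IsFld b)
    (va : ∀ n, 0 ≤ n → a n vac = 0) (vb : ∀ n, 0 ≤ n → b n vac = 0) (n k : ℤ) (hk : 0 ≤ k) :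
    prodF a b ha hb n k vac = 0 := by
  rw [prodF_apply]
  unfold brA P1
  rw [S_eq 0, S_eq 0]
  · simp
  · intro j _
    rw [va _ (by omega), map_zero, smul_zero]
  · intro j _
    rw [vb _ (by omega), map_zero, smul_zero]

theorem prodF_vac_neg_one {vac : V} {a b : Fld V} (ha : IsFld a) (hb : IsFld b)
    (va : ∀ n, 0 ≤ n → a n vac = 0) (vb : ∀ n, 0 ≤ n → b n vac = 0) (n : ℤ) :
    prodF a b ha hb n (-1) vac = a n (b (-1) vac) := by
  rw [prodF_apply]
  unfold brA P1
  rw [S_eq 1, S_eq 0]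
  · simp
  · intro j _
    rw [va _ (by omega), map_zero, smul_zero]
  · intro j hj
    rw [vb _ (by omega), map_zero, smul_zero]

end Pool.Agent.H16.VA
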