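import Pool.Agent.H16.VA.Defs

/-!
# Differential data and the vertex algebra of chiral differential operators over them
-/

set_option autoImplicit false

open Finset MvPolynomial

namespace Pool.Agent.H16.VA

section mapDer

variable {σ A : Type*} [CommRing A] [Algebra ℂ A]

/-- coefficientwise application of a linear map (auxiliary function) -/
noncomputable def mapCf (f : A →ₗ[ℂ] A) (p : MvPolynomial σ A) : MvPolynomial σ A :=
  ∑ s ∈ p.support, monomial s (f (coeff s p))

theorem coeff_mapCf (f : A →ₗ[ℂ] A) (p : MvPolynomial σ A) (s : σ →₀ ℕ) :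
    coeff s (mapCf f p) = f (coeff s p) := by
  classical
  unfold mapCf
  rw [coeff_sum]
  simp only [coeff_monomial]
  rw [Finset.sum_ite_eq' p.support s]
  split_ifs with h
  · rfl
  · rw [MvPolynomial.notMem_support_iff.mp h, map_zero]

/-- coefficientwise application of a linear map -/
noncomputable def mapC (f : A →ₗ[ℂ] A) : MvPolynomial σ A →ₗ[ℂ] MvPolynomial σ A where
  toFun := mapCf f
  map_add' p q := by
    ext s
    rw [coeff_add, coeff_mapCf, coeff_mapCf, coeff_mapCf, coeff_add, map_add]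
  map_smul' c p := by
    ext s
    rw [RingHom.id_apply, coeff_smul, coeff_mapCf, coeff_mapCf, coeff_smul, map_smul]

theorem coeff_mapC (f : A →ₗ[ℂ] A) (p : MvPolynomial σ A) (s : σ →₀ ℕ) :
    coeff s (mapC f p) = f (coeff s p) := coeff_mapCf f p s

theorem mapC_monomial (f : A →ₗ[ℂ] A) (s : σ →₀ ℕ) (a : A) :
    mapC f (monomial s a) = monomial s (f a) := by
  classical
  ext t
  rw [coeff_mapC, coeff_monomial, coeff_monomial]
  split_ifs
  · rfl
  · exact map_zero f

/-- a derivation of `A` applied to the coefficients of polynomials -/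
noncomputable def mapDer (D : Derivation ℂ A A) :
    Derivation ℂ (MvPolynomial σ A) (MvPolynomial σ A) :=
  Derivation.mk' (mapC (D : A →ₗ[ℂ] A)) (by
    intro p q
    induction p using MvPolynomial.induction_on' with
    | add p p' hp hp' =>
      rw [add_mul, map_add, map_add, hp, hp', add_smul, smul_add]
      abel
    | monomial s a =>
      induction q using MvPolynomial.induction_on' with
      | add q q' hq hq' =>
        rw [mul_add, map_add, map_add, hq, hq', add_smul, smul_add]
        abel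
      | monomial t b =>
        rw [monomial_mul, mapC_monomial, mapC_monomial, mapC_monomial]
        simp only [Derivation.coeFn_coe, Derivation.leibniz, smul_eq_mul, monomial_mul]
        rw [add_comm t s, ← map_add])

theorem mapDer_monomial (D : Derivation ℂ A A) (s : σ →₀ ℕ) (a : A) :
    mapDer D (monomial s a) = monomial s (D a) := mapC_monomial _ s a

theorem mapDer_C (D : Derivation ℂ A A) (a : A) :
    mapDer (σ := σ) D (C a) = C (D a) := mapC_monomial _ 0 a

theorem mapDer_X (D : Derivation ℂ A A) (n : σ) : mapDer D (X n : MvPolynomial σ A) = 0 := by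
  unfold X
  rw [mapDer_monomial, Derivation.map_one_eq_zero, map_zero]

end mapDer

/-- A commutative algebra `A` with a derivation `T` and locally finite commuting derivations `d k`
(`k ∈ ℕ`) with `[d k, T] = k d (k-1)`. -/
structure DData (A : Type*) [CommRing A] [Algebra ℂ A] where
  T : Derivation ℂ A A
  d : ℕ → Derivation ℂ A A
  comm : ∀ m n a, d m (d n a) = d n (d m a)
  dT0 : ∀ a, d 0 (T a) = T (d 0 a)
  dT : ∀ k a, d (k + 1) (T a) = T (d (k + 1) a) + ((k + 1 : ℕ) : ℂ) • d k a
  fin : ∀ a, ∃ K, ∀ k, K ≤ k → d k a = 0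

section

variable {A : Type*} [CommRing A] [Algebra ℂ A]

/-- divided powers `T^j / j!` -/
noncomputable def DData.Tj (D : DData A) (j : ℕ) (a : A) : A :=
  ((j.factorial : ℂ)⁻¹) • (⇑D.T)^[j] a

/-- A vertex algebra structure on `A[β_0, β_1, ...]` (`β_n` is the variable `X n`), in which
`β_(-n-1)` is multiplication by `β_n`, `β_(n)` (`n ≥ 0`) acts by the derivation `d n` on
coefficients, and the elements of `A` form a commutative vertex subalgebra. -/
structure Model (D : DData A) where
  W : VertexAlgebra (MvPolynomial ℕ A)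
  vac : W.vac = 1
  T_C : ∀ a, W.T (C a) = C (D.T a)
  T_X : ∀ n, W.T (X n) = ((n + 1 : ℕ) : ℂ) • X (n + 1)
  T_mul : ∀ u v, W.T (u * v) = W.T u * v + u * W.T v
  b_neg : ∀ (n : ℕ) v, W.Y (X 0) (-(n : ℤ) - 1) v = X n * v
  b_nonneg : ∀ (n : ℕ) v, W.Y (X 0) n v = mapDer (D.d n) v
  a_neg : ∀ a b (n : ℕ), W.Y (C a) (-(n : ℤ) - 1) (C b) = C (D.Tj n a * b)
  a_nonneg : ∀ a b (n : ℕ), W.Y (C a) n (C b) = 0
  a_rec : ∀ a (m : ℤ) (n : ℕ) v, W.Y (C a) m (X n * v) = X n * W.Y (C a) m v -
    ∑ᶠ k : ℕ, (Ring.choose (-(n : ℤ) - 1) k : ℤ) • W.Y (C (D.d k a)) (m - n - 1 - k) v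
  a_lin : ∀ a b m v, W.Y (C a) m (C b * v) = C b * W.Y (C a) m v
  a_comm : ∀ a b m n v, W.Y (C a) m (W.Y (C b) n v) = W.Y (C b) n (W.Y (C a) m v)

end

end Pool.Agent.H16.VA
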