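import Pool.Agent.H16.VA.Fld

/-!
# Vertex algebras, Zhu's `C_2`-algebra, associated variety, symplectic leaves
-/

set_option autoImplicit false

open Finset

namespace Pool.Agent.H16.VA

/-- A vertex algebra over the complex numbers (Kac's axioms, `Y u n v` is the mode `u_(n) v`). -/
structure VertexAlgebra (V : Type*) [AddCommGroup V] [Module ℂ V] where
  /-- the modes `u ↦ (n ↦ u_(n))` -/
  Y : V →ₗ[ℂ] Fld V
  /-- the vacuum -/
  vac : V
  /-- the translation operator -/
  T : Module.End ℂ V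
  /-- `u_(n) v = 0` for large `n` -/
  trunc : ∀ u, IsFld (Y u)
  /-- `Y(vac, z) = id` -/
  vac_mode : ∀ n v, Y vac n v = if n = -1 then v else 0
  /-- `Y(u, z) vac` is regular with value `u` at `z = 0` -/
  creat : ∀ u, Y u (-1) vac = u
  creat_nonneg : ∀ u n, 0 ≤ n → Y u n vac = 0
  T_vac : T vac = 0
  /-- `[T, Y(u, z)] = ∂_z Y(u, z)` -/
  T_comm : ∀ u n v, T (Y u n v) - Y u n (T v) = (-n : ℤ) • Y u (n - 1) v
  /-- locality: `(z-w)^N [Y(u, z), Y(v, w)] = 0` for some `N` -/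
  loc : ∀ u v, Loc (Y u) (Y v)

/-- A Poisson bracket on a commutative algebra. -/
structure PoissonStr (R : Type*) [CommRing R] [Algebra ℂ R] where
  br : R →ₗ[ℂ] R →ₗ[ℂ] R
  alt : ∀ a, br a a = 0
  leib : ∀ a b c, br a (b * c) = br a b * c + b * br a c
  jacobi : ∀ a b c, br a (br b c) = br (br a b) c + br b (br a c)

section

variable {V : Type*} [AddCommGroup V] [Module ℂ V] (W : VertexAlgebra V)

/-- ideals of a vertex algebra -/
def VertexAlgebra.IsIdeal (I : Submodule ℂ V) : Prop :=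
  (∀ v ∈ I, W.T v ∈ I) ∧ (∀ u n, ∀ v ∈ I, W.Y u n v ∈ I) ∧ ∀ u n, ∀ v ∈ I, W.Y v n u ∈ I

/-- simple: nonzero and without nonzero proper ideals -/
def VertexAlgebra.IsSimpleVA : Prop :=
  Nontrivial V ∧ ∀ I : Submodule ℂ V, W.IsIdeal I → I = ⊥ ∨ I = ⊤

/-- `ω` is a conformal vector of central charge `c`: the modes `L_m = ω_(m+1)` satisfy the
Virasoro relations, `L_{-1} = T`, and `L_0` is diagonalisable with integral eigenvalues. -/
structure VertexAlgebra.IsConformalVector (ω : V) (c : ℂ) : Prop where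
  vir : ∀ (m n : ℤ) (v : V), W.Y ω (m + 1) (W.Y ω (n + 1) v) - W.Y ω (n + 1) (W.Y ω (m + 1) v) =
    (m - n) • W.Y ω (m + n + 1) v +
      (if m + n = 0 then ((m : ℂ) ^ 3 - m) / 12 * c else 0) • v
  Lneg1 : ∀ v, W.Y ω 0 v = W.T v
  diag : ⨆ n : ℤ, Module.End.eigenspace (W.Y ω 1) (n : ℂ) = ⊤

/-- finitely strongly generated: `V` is spanned by the elements
`a¹_(-n₁-1) ... aʳ_(-n_r-1) vac` with `aⁱ` in a finite set -/
def VertexAlgebra.StronglyFG : Prop :=
  ∃ S : Finset V, ∀ U : Submodule ℂ V, W.vac ∈ U →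
    (∀ a ∈ S, ∀ n : ℕ, ∀ u ∈ U, W.Y a (-(n : ℤ) - 1) u ∈ U) → U = ⊤

/-- `C_2(V)`, the span of all `a_(-2) b` -/
def VertexAlgebra.C2 : Submodule ℂ V :=
  Submodule.span ℂ {x | ∃ a b, x = W.Y a (-2) b}

/-- `π : V → R` exhibits the Poisson algebra `R` as Zhu's `C_2`-algebra `R_V = V / C_2(V)`, with
product `π(a) π(b) = π(a_(-1) b)` and bracket `{π(a), π(b)} = π(a_(0) b)` -/
structure VertexAlgebra.IsC2Algebra {R : Type*} [CommRing R] [Algebra ℂ R] (P : PoissonStr R)
    (π : V →ₗ[ℂ] R) : Prop where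
  surj : Function.Surjective π
  ker : LinearMap.ker π = W.C2
  one : π W.vac = 1
  mul : ∀ a b, π (W.Y a (-1) b) = π a * π b
  br : ∀ a b, π (W.Y a 0 b) = P.br (π a) (π b)

end

section leaves

variable {R : Type*} [CommRing R] [Algebra ℂ R] (P : PoissonStr R)

/-- the closed point of the complex algebra `R` given by a character -/
def ptOf (χ : R →ₐ[ℂ] ℂ) : MaximalSpectrum R :=
  ⟨RingHom.ker (χ : R →+* ℂ), RingHom.ker_isMaximal_of_surjective (χ : R →+* ℂ)
    fun z => ⟨algebraMap ℂ R z, by simp⟩⟩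

/-- `γ` is an integral curve on `[0,1]` of the Hamiltonian vector field `{f, ·}` on the closed
points of `R` (a curve of characters with `d/dt g(γ t) = {f, g}(γ t)` for every `g`). -/
def PoissonStr.IsHamCurve (f : R) (γ : ℝ → (R →ₐ[ℂ] ℂ)) : Prop :=
  ∀ g : R, ∀ t ∈ Set.Icc (0 : ℝ) 1,
    HasDerivWithinAt (fun t => γ t g) (γ t (P.br f g)) (Set.Icc (0 : ℝ) 1) t

/-- Two closed points of `Specm R` lie in the same symplectic leaf if they are connected by a
piecewise Hamiltonian curve. (The Hamiltonians are complex valued, so multiplying them by complex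
constants gives the flows for complex times.) -/
def PoissonStr.leafSetoid : Setoid (MaximalSpectrum R) :=
  Relation.EqvGen.setoid fun x y => ∃ (f : R) (γ : ℝ → (R →ₐ[ℂ] ℂ)),
    P.IsHamCurve f γ ∧ ptOf (γ 0) = x ∧ ptOf (γ 1) = y

/-- the set of symplectic leaves of `Specm R` -/
def PoissonStr.Leaves : Type _ := Quotient P.leafSetoid

end leaves

end Pool.Agent.H16.VA
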