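import Pool.Agent.H16.VA.Fld

/-!
# Products of fields and Dong's lemma
-/

set_option autoImplicit false

open Finset

namespace Pool.Agent.H16.VA

variable {V : Type*} [AddCommGroup V] [Module ℂ V]

theorem brA_symm (a b : Fld V) (n m k : ℤ) (w : V) :
    brA a b n m k w = -((n.negOnePow : ℤ) • brA b a n k m w) := by
  unfold brA
  rw [smul_sub, smul_smul]
  have : ((n.negOnePow : ℤ) * (n.negOnePow : ℤ)) = 1 := by
    rcases Int.even_or_odd n with h | h
    · rw [Int.negOnePow_even _ h]; simp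
    · rw [Int.negOnePow_odd _ h]; simp
  rw [this, one_smul]
  abel

theorem LocN.symm {a b : Fld V} (ha : IsFld a) (hb : IsFld b) {N : ℕ} (h : LocN N a b) :
    LocN N b a := by
  rw [locN_iff hb ha]
  rw [locN_iff ha hb] at h
  intro m k w
  rw [brA_symm, h, smul_zero, neg_zero]

theorem Loc.symm {a b : Fld V} (ha : IsFld a) (hb : IsFld b) (h : Loc a b) : Loc b a := by
  obtain ⟨N, hN⟩ := h
  exact ⟨N, hN.symm ha hb⟩

theorem P1_add {a b : Fld V} (hb : IsFld b) (n m k : ℤ) (w w' : V) :
    P1 a b n m k (w + w') = P1 a b n m k w + P1 a b n m k w' := by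
  unfold P1
  rw [← finsum_add_distrib (S_fin (P1_fin hb n m k w)) (S_fin (P1_fin hb n m k w'))]
  congr 1
  funext j
  rw [map_add, map_add, smul_add]

theorem P1_smul {a b : Fld V} (hb : IsFld b) (n m k : ℤ) (c : ℂ) (w : V) :
    P1 a b n m k (c • w) = c • P1 a b n m k w := by
  unfold P1
  rw [smul_finsum' c (S_fin (P1_fin hb n m k w))]
  congr 1
  funext j
  rw [map_smul, map_smul, smul_comm]

/-- the `n`-th product of fields -/
noncomputable def prodF (a b : Fld V) (ha : IsFld a) (hb : IsFld b) (n : ℤ) : Fld V := fun k =>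
  { toFun := brA a b n 0 k
    map_add' := fun w w' => by
      unfold brA
      rw [P1_add hb, P1_add ha, smul_add]
      abel
    map_smul' := fun c w => by
      unfold brA
      rw [P1_smul hb, P1_smul ha, RingHom.id_apply, smul_sub, smul_comm] }

theorem prodF_apply (a b : Fld V) (ha : IsFld a) (hb : IsFld b) (n k : ℤ) (w : V) :
    prodF a b ha hb n k w = brA a b n 0 k w := rfl

theorem prodF_isFld (a b : Fld V) (ha : IsFld a) (hb : IsFld b) (n : ℤ) :
    IsFld (prodF a b ha hb n) := by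
  intro w
  obtain ⟨Nb, hNb⟩ := hb w
  obtain ⟨Na, hNa⟩ := ha w
  have h1 : ∃ M : ℤ, ∀ j : ℕ, j < Na.toNat → ∀ q, M ≤ q → b q (a j w) = 0 := by
    generalize Na.toNat = J
    induction J with
    | zero => exact ⟨0, fun j hj => absurd hj (by omega)⟩
    | succ J ih =>
      obtain ⟨M, hM⟩ := ih
      obtain ⟨M', hM'⟩ := hb (a J w)
      refine ⟨max M M', fun j hj q hq => ?_⟩
      rcases Nat.lt_succ_iff_lt_or_eq.mp hj with h | h
      · exact hM j h q (le_trans (le_max_left _ _) hq)
      · subst h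
        exact hM' q (le_trans (le_max_right _ _) hq)
  obtain ⟨M, hM⟩ := h1
  refine ⟨max Nb (M - n + Na.toNat), fun k hk => ?_⟩
  rw [prodF_apply]
  have hk1 : Nb ≤ k := le_trans (le_max_left _ _) hk
  have hk2 : M - n + Na.toNat ≤ k := le_trans (le_max_right _ _) hk
  have e1 : P1 a b n 0 k w = 0 := by
    unfold P1
    rw [S_eq 0]
    · simp
    · intro j _
      rw [hNb _ (by omega), map_zero, smul_zero]
  have e2 : P1 b a n k 0 w = 0 := by
    unfold P1
    rw [S_eq 0]
    · simp
    · intro j _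
      rw [zero_add]
      by_cases hj : j < Na.toNat
      · rw [hM j hj _ (by omega), smul_zero]
      · rw [hNa _ (by omega), map_zero, smul_zero]
  unfold brA
  rw [e1, e2, smul_zero, sub_zero]

/-! ### shift operators -/

section shifts

variable {X : Type*} [AddCommGroup X]

/-- functions of three integers -/
abbrev F3 (X : Type*) := ℤ → ℤ → ℤ → X

/-- shift of the first variable -/
def sZ : AddMonoid.End (F3 X) where
  toFun F := fun p q r => F (p + 1) q r
  map_zero' := rfl
  map_add' _ _ := rfl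

/-- shift of the second variable -/
def sW : AddMonoid.End (F3 X) where
  toFun F := fun p q r => F p (q + 1) r
  map_zero' := rfl
  map_add' _ _ := rfl

/-- shift of the third variable -/
def sU : AddMonoid.End (F3 X) where
  toFun F := fun p q r => F p q (r + 1)
  map_zero' := rfl
  map_add' _ _ := rfl

theorem comm_ZW : Commute (sZ : AddMonoid.End (F3 X)) sW := rfl
theorem comm_ZU : Commute (sZ : AddMonoid.End (F3 X)) sU := rfl
theorem comm_WU : Commute (sW : AddMonoid.End (F3 X)) sU := rfl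

theorem sZ_pow (n : ℕ) (F : F3 X) (p q r : ℤ) : ((sZ ^ n : AddMonoid.End (F3 X)) F) p q r
    = F (p + n) q r := by
  induction n generalizing p with
  | zero => simp
  | succ n ih =>
    rw [pow_succ']
    change ((sZ ^ n : AddMonoid.End (F3 X)) F) (p + 1) q r = _
    rw [ih]
    congr 1
    push_cast
    ring

theorem sW_pow (n : ℕ) (F : F3 X) (p q r : ℤ) : ((sW ^ n : AddMonoid.End (F3 X)) F) p q r
    = F p (q + n) r := by
  induction n generalizing q with
  | zero => simp
  | succ n ih =>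
    rw [pow_succ']
    change ((sW ^ n : AddMonoid.End (F3 X)) F) p (q + 1) r = _
    rw [ih]
    congr 1
    push_cast
    ring

theorem sU_pow (n : ℕ) (F : F3 X) (p q r : ℤ) : ((sU ^ n : AddMonoid.End (F3 X)) F) p q r
    = F p q (r + n) := by
  induction n generalizing r with
  | zero => simp
  | succ n ih =>
    rw [pow_succ']
    change ((sU ^ n : AddMonoid.End (F3 X)) F) p q (r + 1) = _
    rw [ih]
    congr 1
    push_cast
    ring

/-- alternating binomial sum -/
def al (N : ℕ) (g : ℤ → ℤ → X) (m k : ℤ) : X :=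
  ∑ j ∈ range (N + 1), ((-1 : ℤ) ^ j * (N.choose j : ℤ)) • g (m + N - j) (k + j)

theorem al_succ (N : ℕ) (g : ℤ → ℤ → X) (m k : ℤ) :
    al (N + 1) g m k = al N g (m + 1) k - al N g m (k + 1) := by
  unfold al
  rw [Finset.sum_range_succ' _ (N + 1),
    Finset.sum_range_succ' (fun j : ℕ => ((-1 : ℤ) ^ j * (N.choose j : ℤ)) •
      g (m + 1 + N - j) (k + j)) N]
  rw [Finset.sum_range_succ (fun j : ℕ => ((-1 : ℤ) ^ (j + 1) * ((N + 1).choose (j + 1) : ℤ)) •
    g (m + ((N + 1 : ℕ) : ℤ) - ((j + 1 : ℕ) : ℤ)) (k + ((j + 1 : ℕ) : ℤ))) N]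
  rw [Finset.sum_range_succ (fun j : ℕ => ((-1 : ℤ) ^ j * (N.choose j : ℤ)) •
    g (m + N - j) (k + 1 + j)) N]
  have e1 : ∀ j : ℕ, m + 1 + (N : ℤ) - ((j + 1 : ℕ) : ℤ) = m + N - j := by
    intro j; push_cast; ring
  have e2 : ∀ j : ℕ, m + ((N + 1 : ℕ) : ℤ) - ((j + 1 : ℕ) : ℤ) = m + N - j := by
    intro j; push_cast; ring
  have e3 : ∀ j : ℕ, k + ((j + 1 : ℕ) : ℤ) = k + 1 + j := by
    intro j; push_cast; ring
  simp only [e1, e2, e3]
  have e4 : m + ((N + 1 : ℕ) : ℤ) - ((0 : ℕ) : ℤ) = m + 1 + N - ((0 : ℕ) : ℤ) := by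
    push_cast; ring
  rw [e4]
  have key : ∑ x ∈ range N, ((-1 : ℤ) ^ (x + 1) * ((N + 1).choose (x + 1) : ℤ)) •
      g (m + N - x) (k + 1 + x) =
    ∑ x ∈ range N, ((-1 : ℤ) ^ (x + 1) * (N.choose (x + 1) : ℤ)) •
      g (m + N - x) (k + 1 + x) -
    ∑ x ∈ range N, ((-1 : ℤ) ^ x * (N.choose x : ℤ)) •
      g (m + N - x) (k + 1 + x) := by
    rw [← Finset.sum_sub_distrib]
    apply Finset.sum_congr rfl
    intro x _
    rw [← sub_smul, Nat.choose_succ_succ]
    congr 1
    push_cast
    ring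
  rw [key]
  simp only [Nat.choose_self, Nat.choose_zero_right, pow_zero, pow_succ]
  push_cast
  simp only [mul_neg, mul_one, neg_smul, one_smul]
  abel

theorem al_zero (g : ℤ → ℤ → X) (m k : ℤ) : al 0 g m k = g m k := by
  simp [al]

theorem WU_pow (N : ℕ) (F : F3 X) (p q r : ℤ) :
    (((sW - sU) ^ N : AddMonoid.End (F3 X)) F) p q r = al N (F p) q r := by
  induction N generalizing q r with
  | zero => rw [al_zero]; rfl
  | succ N ih =>
    rw [pow_succ', al_succ, ← ih, ← ih]
    rfl

theorem ZU_pow (N : ℕ) (F : F3 X) (p q r : ℤ) :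
    (((sZ - sU) ^ N : AddMonoid.End (F3 X)) F) p q r = al N (fun x y => F x q y) p r := by
  induction N generalizing p r with
  | zero => rw [al_zero]; rfl
  | succ N ih =>
    rw [pow_succ', al_succ, ← ih, ← ih]
    rfl

theorem mulap {M : Type*} [AddCommGroup M] (f g : AddMonoid.End M) (x : M) :
    (f * g) x = f (g x) := rfl

theorem sumap {M : Type*} [AddCommGroup M] (s : Finset ℕ) (f : ℕ → AddMonoid.End M) (x : M) :
    (∑ i ∈ s, f i) x = ∑ i ∈ s, f i x := by
  induction s using Finset.induction_on with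
  | empty => rfl
  | insert a s ha ih =>
    rw [Finset.sum_insert ha, Finset.sum_insert ha, ← ih]
    rfl

theorem natap {M : Type*} [AddCommGroup M] (n : ℕ) (x : M) :
    ((n : AddMonoid.End M)) x = n • x := by
  induction n with
  | zero => rw [Nat.cast_zero, zero_smul]; rfl
  | succ n ih => rw [Nat.cast_succ, add_smul, ← ih, one_smul]; rfl

/-- the algebraic core of Dong's lemma -/
theorem dong_core {N : ℕ} {F F1 F2 : F3 X} (hF : F = F1 + F2)
    (h1 : ((sW - sU) ^ N : AddMonoid.End (F3 X)) F1 = 0)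
    (h2 : ((sZ - sU) ^ N : AddMonoid.End (F3 X)) F2 = 0) {N' : ℕ}
    (h3 : ((sZ - sW) ^ N' : AddMonoid.End (F3 X)) F = 0) :
    ((sW - sU) ^ (N' + N + N) : AddMonoid.End (F3 X)) F = 0 := by
  have c1 : Commute (sW - sU : AddMonoid.End (F3 X)) (sZ - sU) :=
    (comm_ZW.symm.sub_right comm_WU).sub_left (comm_ZU.symm.sub_right (Commute.refl _))
  have c2 : Commute (sW - sZ : AddMonoid.End (F3 X)) (sZ - sU) :=
    (comm_ZW.symm.sub_right comm_WU).sub_left ((Commute.refl _).sub_right comm_ZU)
  have c3 : Commute (sW - sZ : AddMonoid.End (F3 X)) (sW - sU) :=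
    ((Commute.refl _).sub_right comm_WU).sub_left (comm_ZW.sub_right comm_ZU)
  set G := ((sW - sU) ^ N : AddMonoid.End (F3 X)) F with hG
  have hG1 : ((sZ - sU) ^ N : AddMonoid.End (F3 X)) G = 0 := by
    rw [hG, hF, map_add, h1, zero_add]
    rw [← mulap, ← (c1.pow_pow N N).eq, mulap, h2, map_zero]
  have hG2 : ((sW - sZ) ^ N' : AddMonoid.End (F3 X)) G = 0 := by
    rw [hG, ← mulap, (c3.pow_pow N' N).eq, mulap]
    have : (sW - sZ : AddMonoid.End (F3 X)) = -(sZ - sW) := by abel
    have h4 := neg_pow (sZ - sW : AddMonoid.End (F3 X)) N'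
    rw [this]
    erw [h4]
    rw [mulap, h3, map_zero, map_zero]
  have e : (sW - sU : AddMonoid.End (F3 X)) = (sW - sZ) + (sZ - sU) := by abel
  rw [pow_add, mulap, ← hG]
  rw [e, c2.add_pow]
  rw [sumap]
  apply Finset.sum_eq_zero
  intro i hi
  rw [Finset.mem_range] at hi
  rw [mulap, natap, map_nsmul]
  by_cases hi' : N' ≤ i
  · rw [(c2.pow_pow i (N' + N - i)).eq, mulap]
    obtain ⟨d, rfl⟩ := Nat.exists_eq_add_of_le hi'
    rw [add_comm N' d, pow_add, mulap, hG2, map_zero, map_zero, smul_zero]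
  · rw [mulap]
    obtain ⟨d, hd⟩ := Nat.exists_eq_add_of_le (show N ≤ N' + N - i by omega)
    rw [hd, add_comm N d, pow_add, mulap, hG1, map_zero, map_zero, smul_zero]

end shifts

theorem al_add {X : Type*} [AddCommGroup X] (N : ℕ) (g g' : ℤ → ℤ → X) (m k : ℤ) :
    al N (fun x y => g x y + g' x y) m k = al N g m k + al N g' m k := by
  unfold al
  rw [← Finset.sum_add_distrib]
  simp only [smul_add]

theorem al_smul {X : Type*} [AddCommGroup X] (N : ℕ) (s : ℤ) (g : ℤ → ℤ → X) (m k : ℤ) :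
    al N (fun x y => s • g x y) m k = s • al N g m k := by
  unfold al
  rw [Finset.smul_sum]
  apply Finset.sum_congr rfl
  intro j _
  rw [smul_comm]

/-- the general commutator term -/
noncomputable def cterm (b c : Fld V) (κ : ℕ → ℤ) (f : ℕ → Module.End ℂ V) (e : ℕ → ℤ)
    (v : ℕ → V) (q r : ℤ) : V :=
  ∑ᶠ j : ℕ, κ j • f j (b (q + e j) (c r (v j)) - c r (b (q + e j) (v j)))

theorem cterm_kill {b c : Fld V} {N : ℕ} (h : LocN N b c) (κ : ℕ → ℤ)
    (f : ℕ → Module.End ℂ V) (e : ℕ → ℤ) (v : ℕ → V)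
    (hfin : ∀ q r, (Function.support fun j : ℕ =>
      κ j • f j (b (q + e j) (c r (v j)) - c r (b (q + e j) (v j)))).Finite) (q r : ℤ) :
    al N (cterm b c κ f e v) q r = 0 := by
  unfold al cterm
  have h1 : ∀ i : ℕ, ((-1 : ℤ) ^ i * (N.choose i : ℤ)) • ∑ᶠ j : ℕ, κ j •
      f j (b (q + N - i + e j) (c (r + i) (v j)) - c (r + i) (b (q + N - i + e j) (v j))) =
      ∑ᶠ j : ℕ, ((-1 : ℤ) ^ i * (N.choose i : ℤ)) • κ j •
      f j (b (q + N - i + e j) (c (r + i) (v j)) - c (r + i) (b (q + N - i + e j) (v j))) :=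
    fun i => smul_finsum' _ (hfin _ _)
  simp only [h1]
  rw [← finsum_sum_comm]
  · rw [← finsum_zero (M := V) (α := ℕ)]
    congr 1
    funext j
    have h2 := h (q + e j) r (v j)
    have h3 : ∑ i ∈ range (N + 1), ((-1 : ℤ) ^ i * (N.choose i : ℤ)) • κ j •
        f j (b (q + N - i + e j) (c (r + i) (v j)) - c (r + i) (b (q + N - i + e j) (v j))) =
        κ j • f j (∑ i ∈ range (N + 1), ((-1 : ℤ) ^ i * (N.choose i : ℤ)) •
          (b (q + e j + N - i) (c (r + i) (v j)) - c (r + i) (b (q + e j + N - i) (v j)))) := by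
      rw [map_sum, Finset.smul_sum]
      apply Finset.sum_congr rfl
      intro i _
      have e1 : q + N - i + e j = q + e j + N - i := by ring
      rw [e1, smul_comm, map_zsmul]
    rw [h3, h2, map_zero, smul_zero]
  · intro i _
    apply (hfin (q + N - i) (r + i)).subset
    intro j hj
    rw [Function.mem_support] at hj ⊢
    intro hc
    apply hj
    rw [hc, smul_zero]

/-- **Dong's lemma** -/
theorem dong {a b c : Fld V} (ha : IsFld a) (hb : IsFld b) (hc : IsFld c)
    (hab : Loc a b) (hac : Loc a c) (hbc : Loc b c) (n : ℤ) : Loc (prodF a b ha hb n) c := by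
  obtain ⟨Nab, hab⟩ := hab
  obtain ⟨Nac, hac⟩ := hac
  obtain ⟨Nbc, hbc⟩ := hbc
  set N := max Nac Nbc with hN
  replace hac : LocN N a c := hac.mono ha hc (le_max_left _ _)
  replace hbc : LocN N b c := hbc.mono hb hc (le_max_right _ _)
  set N' := (Nab - n).toNat with hN'
  refine ⟨N' + N + N, ?_⟩
  intro k r w
  set κ : ℕ → ℤ := fun j => (-1 : ℤ) ^ j * Ring.choose n j with hκ
  set s : ℤ := (n.negOnePow : ℤ) with hs
  -- the four terms
  have fin1 : ∀ p q r, (Function.support fun j : ℕ =>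
      κ j • (a (p + n - j)) (b (q + (j : ℤ)) (c r w) - c r (b (q + (j : ℤ)) w))).Finite := by
    intro p q r
    obtain ⟨M1, hM1⟩ := hb (c r w)
    obtain ⟨M2, hM2⟩ := hb w
    apply S_fin
    refine ⟨(max M1 M2 - q).toNat, fun j hj => ?_⟩
    have hj1 := le_max_left M1 M2
    have hj2 := le_max_right M1 M2
    rw [hM1 _ (by omega), hM2 _ (by omega), map_zero, sub_zero, map_zero, smul_zero]
  have fin2 : ∀ p q r, (Function.support fun j : ℕ =>
      κ j • (1 : Module.End ℂ V) (a (p + (n - j)) (c r (b (q + (j : ℤ)) w)) -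
        c r (a (p + (n - j)) (b (q + (j : ℤ)) w)))).Finite := by
    intro p q r
    obtain ⟨M2, hM2⟩ := hb w
    apply S_fin
    refine ⟨(M2 - q).toNat, fun j hj => ?_⟩
    rw [hM2 _ (by omega)]
    simp
  have fin3 : ∀ p q r, (Function.support fun j : ℕ =>
      κ j • (b (q + n - j)) (a (p + (j : ℤ)) (c r w) - c r (a (p + (j : ℤ)) w))).Finite := by
    intro p q r
    obtain ⟨M1, hM1⟩ := ha (c r w)
    obtain ⟨M2, hM2⟩ := ha w
    apply S_fin
    refine ⟨(max M1 M2 - p).toNat, fun j hj => ?_⟩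
    have hj1 := le_max_left M1 M2
    have hj2 := le_max_right M1 M2
    rw [hM1 _ (by omega), hM2 _ (by omega), map_zero, sub_zero, map_zero, smul_zero]
  have fin4 : ∀ p q r, (Function.support fun j : ℕ =>
      κ j • (1 : Module.End ℂ V) (b (q + (n - j)) (c r (a (p + (j : ℤ)) w)) -
        c r (b (q + (n - j)) (a (p + (j : ℤ)) w)))).Finite := by
    intro p q r
    obtain ⟨M2, hM2⟩ := ha w
    apply S_fin
    refine ⟨(M2 - p).toNat, fun j hj => ?_⟩
    rw [hM2 _ (by omega)]
    simp
  let F : F3 V := fun p q r => brA a b n p q (c r w) - c r (brA a b n p q w)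
  let F1 : F3 V := fun p q r =>
    cterm b c κ (fun j => a (p + n - j)) (fun j => (j : ℤ)) (fun _ => w) q r +
    (-s) • cterm b c κ (fun _ => 1) (fun j => n - j) (fun j => a (p + j) w) q r
  let F2 : F3 V := fun p q r =>
    cterm a c κ (fun _ => 1) (fun j => n - j) (fun j => b (q + j) w) p r +
    (-s) • cterm a c κ (fun j => b (q + n - j)) (fun j => (j : ℤ)) (fun _ => w) p r
  have hP : ∀ (a b : Fld V) (hb : IsFld b) p q r
      (f1 : (Function.support fun j : ℕ =>
      κ j • (a (p + n - j)) (b (q + (j : ℤ)) (c r w) - c r (b (q + (j : ℤ)) w))).Finite)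
      (f2 : (Function.support fun j : ℕ =>
      κ j • (1 : Module.End ℂ V) (a (p + (n - j)) (c r (b (q + (j : ℤ)) w)) -
        c r (a (p + (n - j)) (b (q + (j : ℤ)) w)))).Finite),
      P1 a b n p q (c r w) - c r (P1 a b n p q w) =
      cterm b c κ (fun j => a (p + n - j)) (fun j => (j : ℤ)) (fun _ => w) q r +
      cterm a c κ (fun _ => 1) (fun j => n - j) (fun j => b (q + j) w) p r := by
    intro a b hb p q r f1 f2
    unfold cterm P1
    rw [← finsum_add_distrib f1 f2]
    have h5 := S_fin (P1_fin (a := a) hb n p q w)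
    have h6 := S_fin (P1_fin (a := a) hb n p q (c r w))
    have h7 : c r (∑ᶠ j : ℕ, ((-1 : ℤ) ^ j * Ring.choose n j) • a (p + n - j) (b (q + j) w)) =
        ∑ᶠ j : ℕ, c r (((-1 : ℤ) ^ j * Ring.choose n j) • a (p + n - j) (b (q + j) w)) :=
      (c r).toAddMonoidHom.map_finsum h5
    rw [h7, ← finsum_sub_distrib h6]
    · congr 1
      funext j
      have e1 : p + (n - j) = p + n - j := by ring
      rw [e1, Module.End.one_apply, ← smul_add, map_zsmul, ← smul_sub, map_sub]
      congr 1
      abel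
    · apply h5.subset
      intro j hj
      rw [Function.mem_support] at hj ⊢
      intro hc'
      apply hj
      rw [hc', map_zero]
  have hF : F = F1 + F2 := by
    funext p q r
    have h8 := hP a b hb p q r (fin1 p q r) (fin2 p q r)
    have h9 := hP b a ha q p r (fin3 p q r) (fin4 p q r)
    change brA a b n p q (c r w) - c r (brA a b n p q w) = F1 p q r + F2 p q r
    unfold brA
    rw [map_sub, map_zsmul]
    have : P1 a b n p q (c r w) - s • P1 b a n q p (c r w) -
        (c r (P1 a b n p q w) - s • c r (P1 b a n q p w)) =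
        (P1 a b n p q (c r w) - c r (P1 a b n p q w)) +
        (-s) • (P1 b a n q p (c r w) - c r (P1 b a n q p w)) := by
      rw [smul_sub, neg_smul, neg_smul]
      abel
    rw [← hs, this, h8, h9]
    simp only [F1, F2]
    rw [smul_add]
    abel
  have h1 : ((sW - sU) ^ N : AddMonoid.End (F3 V)) F1 = 0 := by
    funext p q r
    rw [WU_pow]
    change al N (fun x y => cterm b c κ (fun j => a (p + n - j)) (fun j => (j : ℤ)) (fun _ => w) x y +
      (-s) • cterm b c κ (fun _ => 1) (fun j => n - j) (fun j => a (p + j) w) x y) q r = 0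
    rw [al_add, al_smul]
    have g1 := cterm_kill hbc κ (fun j => a (p + n - j)) (fun j => (j : ℤ)) (fun _ => w)
      (fun q r => fin1 p q r) q r
    have g2 := cterm_kill hbc κ (fun _ => 1) (fun j => n - j) (fun j => a (p + j) w)
      (fun q r => fin4 p q r) q r
    rw [g1, g2, smul_zero, add_zero]
  have h2 : ((sZ - sU) ^ N : AddMonoid.End (F3 V)) F2 = 0 := by
    funext p q r
    rw [ZU_pow]
    change al N (fun x y => cterm a c κ (fun _ => 1) (fun j => n - j) (fun j => b (q + j) w) x y +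
      (-s) • cterm a c κ (fun j => b (q + n - j)) (fun j => (j : ℤ)) (fun _ => w) x y) p r = 0
    rw [al_add, al_smul]
    have g1 := cterm_kill hac κ (fun _ => 1) (fun j => n - j) (fun j => b (q + j) w)
      (fun p r => fin2 p q r) p r
    have g2 := cterm_kill hac κ (fun j => b (q + n - j)) (fun j => (j : ℤ)) (fun _ => w)
      (fun p r => fin3 p q r) p r
    rw [g1, g2, smul_zero, add_zero]
  have h3 : ((sZ - sW) ^ N' : AddMonoid.End (F3 V)) F = 0 := by
    have h10 : ∀ (M : ℕ) p q r, ((sZ - sW) ^ M : AddMonoid.End (F3 V)) F p q r =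
        brA a b (n + M) p q (c r w) - c r (brA a b (n + M) p q w) := by
      intro M
      induction M with
      | zero => intro p q r; simp [F]
      | succ M ih =>
        intro p q r
        rw [pow_succ']
        change ((sZ - sW) ^ M : AddMonoid.End (F3 V)) F (p + 1) q r -
          ((sZ - sW) ^ M : AddMonoid.End (F3 V)) F p (q + 1) r = _
        rw [ih, ih]
        have e1 : n + ((M + 1 : ℕ) : ℤ) = n + M + 1 := by push_cast; ring
        rw [e1, brA_succ ha hb, brA_succ ha hb, map_sub]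
        abel
    funext p q r
    rw [h10]
    rw [brA_eq_zero_of_le ha hb hab _ (by omega), brA_eq_zero_of_le ha hb hab _ (by omega),
      map_zero, sub_zero]
    rfl
  have h4 := dong_core hF h1 h2 h3
  have h5 := congrFun (congrFun (congrFun h4 0) k) r
  rw [WU_pow] at h5
  exact h5

end Pool.Agent.H16.VA
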