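import Pool.Agent.H16.VA.Cov

/-!
# Existence theorem for vertex algebras
-/

set_option autoImplicit false

open Finset

namespace Pool.Agent.H16.VA

variable {V : Type*} [AddCommGroup V] [Module ℂ V]

/-- the identity field -/
def idF (V : Type*) [AddCommGroup V] [Module ℂ V] : Fld V := fun n => if n = -1 then 1 else 0

theorem idF_apply (n : ℤ) (v : V) : idF V n v = if n = -1 then v else 0 := by
  unfold idF
  split_ifs
  · rfl
  · rfl

theorem idF_isFld : IsFld (idF V) := by
  intro w
  refine ⟨0, fun n hn => ?_⟩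
  rw [idF_apply, if_neg (by omega)]

theorem idF_TCov (T : Module.End ℂ V) : TCov T (idF V) := by
  intro n v
  rw [idF_apply, idF_apply, idF_apply]
  by_cases h : n = -1
  · rw [if_pos h, if_pos h, if_neg (by omega), smul_zero, sub_self]
  · rw [if_neg h, if_neg h, map_zero, sub_self]
    by_cases h0 : n = 0
    · rw [h0]; simp
    · rw [if_neg (by omega), smul_zero]

theorem idF_loc (a : Fld V) : Loc a (idF V) := by
  refine ⟨0, fun m k w => ?_⟩
  simp only [zero_add, range_one, sum_singleton, pow_zero, Nat.choose_self, Nat.cast_one, mul_one,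
    one_smul, Nat.cast_zero, add_zero, sub_zero]
  rw [idF_apply, idF_apply]
  split_ifs
  · exact sub_self _
  · rw [map_zero, sub_zero]

theorem isFld_add {a b : Fld V} (ha : IsFld a) (hb : IsFld b) : IsFld (a + b) := by
  intro w
  obtain ⟨N1, h1⟩ := ha w
  obtain ⟨N2, h2⟩ := hb w
  refine ⟨max N1 N2, fun n hn => ?_⟩
  change a n w + b n w = 0
  rw [h1 n (le_trans (le_max_left _ _) hn), h2 n (le_trans (le_max_right _ _) hn), add_zero]

theorem isFld_smul {a : Fld V} (c : ℂ) (ha : IsFld a) : IsFld (c • a) := by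
  intro w
  obtain ⟨N1, h1⟩ := ha w
  refine ⟨N1, fun n hn => ?_⟩
  change c • a n w = 0
  rw [h1 n hn, smul_zero]

theorem isFld_zero : IsFld (0 : Fld V) := fun _ => ⟨0, fun _ _ => rfl⟩

theorem Loc.add_right {a b b' : Fld V} (ha : IsFld a) (hb : IsFld b) (hb' : IsFld b')
    (h : Loc a b) (h' : Loc a b') : Loc a (b + b') := by
  obtain ⟨N, hN⟩ := h
  obtain ⟨N', hN'⟩ := h'
  refine ⟨max N N', fun m k w => ?_⟩
  have h1 := hN.mono ha hb (le_max_left N N') m k w
  have h2 := hN'.mono ha hb' (le_max_right N N') m k w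
  have h3 := congrArg₂ (· + ·) h1 h2
  simp only [add_zero] at h3
  rw [← h3, ← Finset.sum_add_distrib]
  apply Finset.sum_congr rfl
  intro j _
  rw [← smul_add]
  congr 1
  change a _ (b _ w + b' _ w) - (b _ (a _ w) + b' _ (a _ w)) = _
  rw [map_add]
  abel

theorem Loc.smul_right {a b : Fld V} (c : ℂ) (h : Loc a b) : Loc a (c • b) := by
  obtain ⟨N, hN⟩ := h
  refine ⟨N, fun m k w => ?_⟩
  rw [← smul_zero c, ← hN m k w, Finset.smul_sum]
  apply Finset.sum_congr rfl
  intro j _
  rw [smul_comm c]
  congr 1
  change a _ (c • b _ w) - c • b _ (a _ w) = _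
  rw [map_smul, smul_sub]

theorem Loc.zero_right (a : Fld V) : Loc a 0 := by
  refine ⟨0, fun m k w => ?_⟩
  apply Finset.sum_eq_zero
  intro j _
  change _ • (a _ 0 - 0) = _
  rw [map_zero, sub_zero, smul_zero]

section gen

variable {ι : Type*} (g : ι → Fld V) (hg : ∀ i, IsFld (g i))

/-- fields generated by the `g i` by left-nested products -/
inductive Gen : Fld V → Prop
  | one : Gen (idF V)
  | prod (i : ι) (b : Fld V) (hb : IsFld b) (n : ℤ) : Gen b → Gen (prodF (g i) b (hg i) hb n)
  | add (a b : Fld V) : Gen a → Gen b → Gen (a + b)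
  | smul (c : ℂ) (a : Fld V) : Gen a → Gen (c • a)
  | zero : Gen 0

variable {g hg}

theorem Gen.isFld {b : Fld V} (h : Gen g hg b) : IsFld b := by
  induction h with
  | one => exact idF_isFld
  | prod i b hb n _ _ => exact prodF_isFld _ _ _ _ _
  | add a b _ _ h1 h2 => exact isFld_add h1 h2
  | smul c a _ h1 => exact isFld_smul c h1
  | zero => exact isFld_zero

theorem Gen.cov {T : Module.End ℂ V} (hT : ∀ i, TCov T (g i)) {b : Fld V} (h : Gen g hg b) :
    TCov T b := by
  induction h with
  | one => exact idF_TCov T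
  | prod i b hb n _ ih => exact prodF_TCov (hg i) hb (hT i) ih n
  | add a b _ _ h1 h2 =>
    intro n v
    have e1 := h1 n v
    have e2 := h2 n v
    change T (a n v + b n v) - (a n (T v) + b n (T v)) = (-n) • (a (n - 1) v + b (n - 1) v)
    rw [map_add, smul_add, ← e1, ← e2]
    abel
  | smul c a _ h1 =>
    intro n v
    have e1 := h1 n v
    change T (c • a n v) - c • a n (T v) = (-n) • (c • a (n - 1) v)
    rw [map_smul, smul_comm (-n) c, ← e1, smul_sub]
  | zero =>
    intro n v
    change T 0 - 0 = (-n) • (0 : V)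
    rw [map_zero, sub_zero, smul_zero]

theorem Gen.vac {vac : V} (hv : ∀ i n, 0 ≤ n → g i n vac = 0) {b : Fld V} (h : Gen g hg b) :
    ∀ n, 0 ≤ n → b n vac = 0 := by
  induction h with
  | one =>
    intro n hn
    rw [idF_apply, if_neg (by omega)]
  | prod i b hb n _ ih => exact fun k hk => prodF_vac (hg i) hb (hv i) ih n k hk
  | add a b _ _ h1 h2 =>
    intro n hn
    change a n vac + b n vac = 0
    rw [h1 n hn, h2 n hn, add_zero]
  | smul c a _ h1 =>
    intro n hn
    change c • a n vac = 0
    rw [h1 n hn, smul_zero]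
  | zero => exact fun _ _ => rfl

theorem Gen.loc_gen (hl : ∀ i j, Loc (g i) (g j)) {b : Fld V} (h : Gen g hg b) :
    ∀ i : ι, Loc (g i) b := by
  induction h with
  | one => exact fun i => idF_loc _
  | prod j b hb n _ ih =>
    intro i
    exact (dong (hg j) hb (hg i) (ih j) (hl j i) (Loc.symm (hg i) hb (ih i)) n).symm
      (prodF_isFld _ _ _ _ _) (hg i)
  | add a b ha hb h1 h2 => exact fun i => Loc.add_right (hg i) ha.isFld hb.isFld (h1 i) (h2 i)
  | smul c a _ h1 => exact fun i => Loc.smul_right c (h1 i)
  | zero => exact fun i => Loc.zero_right _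

theorem Gen.loc (hl : ∀ i j, Loc (g i) (g j)) {b c : Fld V} (h : Gen g hg b)
    (hc : Gen g hg c) : Loc c b := by
  induction h with
  | one => exact idF_loc _
  | prod j b hb n hb' ih =>
    exact (dong (hg j) hb hc.isFld (hb'.loc_gen hl j) (hc.loc_gen hl j)
      (Loc.symm hc.isFld hb ih) n).symm (prodF_isFld _ _ _ _ _) hc.isFld
  | add a b ha hb h1 h2 => exact Loc.add_right hc.isFld ha.isFld hb.isFld h1 h2
  | smul c a _ h1 => exact Loc.smul_right c h1
  | zero => exact Loc.zero_right _

/-- Goddard's uniqueness theorem -/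
theorem goddard {vac : V} {T : Module.End ℂ V} {F : Fld V → Prop}
    (hF : ∀ v, ∃ c, F c ∧ (∀ n, 0 ≤ n → c n vac = 0) ∧ c (-1) vac = v)
    {b : Fld V} (hT : TCov T b) (hTv : T vac = 0) (hb : IsFld b)
    (hFf : ∀ c, F c → IsFld c) (hl : ∀ c, F c → Loc c b)
    (hv : ∀ n, 0 ≤ n → b n vac = 0) (h1 : b (-1) vac = 0) : b = 0 := by
  -- all modes kill the vacuum
  have h2 : ∀ n : ℕ, b (-(n : ℤ) - 1) vac = 0 := by
    intro n
    induction n with
    | zero => simpa using h1
    | succ n ih =>
      have h3 := hT (-(n : ℤ) - 1) vac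
      rw [ih, hTv, map_zero, map_zero, sub_zero] at h3
      have e1 : -(n : ℤ) - 1 - 1 = -((n + 1 : ℕ) : ℤ) - 1 := by push_cast; ring
      rw [e1] at h3
      have h4 : ((-(-(n : ℤ) - 1) : ℤ)) ≠ 0 := by omega
      have h5 : (((-(-(n : ℤ) - 1) : ℤ) : ℂ)) • b (-((n + 1 : ℕ) : ℤ) - 1) vac = 0 := by
        rw [Int.cast_smul_eq_zsmul, ← h3]
      rcases smul_eq_zero.mp h5 with h6 | h6
      · exact absurd (by exact_mod_cast h6) h4
      · exact h6
  have h3 : ∀ n, b n vac = 0 := by
    intro n
    by_cases hn : 0 ≤ n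
    · exact hv n hn
    · have := h2 (-n - 1).toNat
      have e1 : -(((-n - 1).toNat : ℕ) : ℤ) - 1 = n := by omega
      rwa [e1] at this
  funext m
  ext v
  obtain ⟨c, hc, hc1, hc2⟩ := hF v
  obtain ⟨N, hN⟩ := Loc.symm (hFf c hc) hb (hl c hc)
  have h4 := hN (m - N) (-1) vac
  rw [Finset.sum_eq_single 0] at h4
  · simp only [pow_zero, Nat.choose_zero_right, Nat.cast_one, mul_one, one_smul, Nat.cast_zero,
      sub_zero, add_zero] at h4
    rw [h3, map_zero, sub_zero, hc2] at h4
    have e1 : m - (N : ℤ) + N = m := by ring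
    rw [e1] at h4
    exact h4
  · intro j _ hj
    rw [h3, map_zero, sub_zero, hc1 _ (by omega), map_zero, smul_zero]
  · intro h
    simp at h

end gen

/-- the space of generated fields -/
def genSub {ι : Type*} (g : ι → Fld V) (hg : ∀ i, IsFld (g i)) : Submodule ℂ (Fld V) where
  carrier := {b | Gen g hg b}
  add_mem' ha hb := Gen.add _ _ ha hb
  zero_mem' := Gen.zero
  smul_mem' c _ ha := Gen.smul c _ ha

/-- evaluation at the vacuum -/
def evVac {ι : Type*} (g : ι → Fld V) (hg : ∀ i, IsFld (g i)) (vac : V) :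
    genSub g hg →ₗ[ℂ] V where
  toFun b := b.1 (-1) vac
  map_add' _ _ := rfl
  map_smul' _ _ := rfl

/-- E: the existence theorem -/
theorem exist : ExistStmt := by
  intro V _ _ vac T ι g hg hl hTv hT hv hS
  -- surjectivity
  have hsurj : Function.Surjective (evVac g hg vac) := by
    rw [← LinearMap.range_eq_top]
    apply hS
    · refine ⟨⟨idF V, Gen.one⟩, ?_⟩
      change idF V (-1) vac = vac
      rw [idF_apply, if_pos rfl]
    · rintro i n v ⟨b, rfl⟩
      refine ⟨⟨prodF (g i) b.1 (hg i) b.2.isFld n, Gen.prod i b.1 b.2.isFld n b.2⟩, ?_⟩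
      change prodF (g i) b.1 (hg i) b.2.isFld n (-1) vac = g i n (b.1 (-1) vac)
      exact prodF_vac_neg_one (hg i) b.2.isFld (hv i) (b.2.vac hv) n
  have hF : ∀ v, ∃ c, Gen g hg c ∧ (∀ n, 0 ≤ n → c n vac = 0) ∧ c (-1) vac = v := by
    intro v
    obtain ⟨b, hb⟩ := hsurj v
    exact ⟨b.1, b.2, b.2.vac hv, hb⟩
  have hinj : Function.Injective (evVac g hg vac) := by
    rw [← LinearMap.ker_eq_bot, LinearMap.ker_eq_bot']
    intro b hb
    apply Subtype.ext
    exact goddard hF (b.2.cov hT) hTv b.2.isFld (fun c hc => hc.isFld)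
      (fun c hc => b.2.loc hl hc) (b.2.vac hv) hb
  let e := LinearEquiv.ofBijective (evVac g hg vac) ⟨hinj, hsurj⟩
  have he : ∀ v, (e.symm v).1 (-1) vac = v := fun v => e.apply_symm_apply v
  have he2 : ∀ (b : Fld V) (hb : Gen g hg b), (e.symm (b (-1) vac)).1 = b := by
    intro b hb
    have : e.symm (e ⟨b, hb⟩) = ⟨b, hb⟩ := e.symm_apply_apply _
    exact congrArg Subtype.val this
  refine ⟨{
    Y := (genSub g hg).subtype ∘ₗ (e.symm : V →ₗ[ℂ] genSub g hg)
    vac := vac
    T := T
    trunc := fun u => (e.symm u).2.isFld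
    vac_mode := ?_
    creat := fun u => he u
    creat_nonneg := fun u n hn => (e.symm u).2.vac hv n hn
    T_vac := hTv
    T_comm := fun u n v => (e.symm u).2.cov hT n v
    loc := fun u v => (e.symm v).2.loc hl (e.symm u).2 }, rfl, rfl, ?_⟩
  · intro n v
    have h1 := he2 (idF V) Gen.one
    rw [idF_apply, if_pos rfl] at h1
    change (e.symm vac).1 n v = _
    rw [h1, idF_apply]
  · intro i
    have h1 : Gen g hg (g i) := by
      have h2 := Gen.prod (g := g) (hg := hg) i (idF V) idF_isFld (-1) Gen.one
      have h3 : prodF (g i) (idF V) (hg i) idF_isFld (-1) = g i := by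
        funext m
        ext w
        rw [prodF_apply]
        unfold brA
        have hc : ∀ j : ℕ, ((-1 : ℤ) ^ j * Ring.choose (-1 : ℤ) j) = 1 := by
          intro j
          induction j with
          | zero => simp
          | succ j ih =>
            have h4 := choose_step (-1) j
            rw [ih] at h4
            have h5 : ((j : ℤ) + 1) ≠ 0 := by omega
            have h6 : (((-1 : ℤ) ^ (j + 1) * Ring.choose (-1 : ℤ) (j + 1)) - 1) * ((j : ℤ) + 1) = 0 := by
              rw [sub_mul, h4]; ring
            rcases mul_eq_zero.mp h6 with h7 | h7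
            · omega
            · exact absurd h7 h5
        have e1 : P1 (g i) (idF V) (-1) 0 m w = if m ≤ -1 then g i m w else 0 := by
          unfold P1
          by_cases hm : m ≤ -1
          · rw [if_pos hm, S_eq ((-m - 1).toNat + 1), Finset.sum_eq_single ((-m - 1).toNat)]
            · rw [hc, one_smul, idF_apply, if_pos (by omega)]
              congr 2
              omega
            · intro j _ hj
              rw [idF_apply, if_neg (by omega), map_zero, smul_zero]
            · intro h
              simp at h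
            · intro j hj
              rw [idF_apply, if_neg (by omega), map_zero, smul_zero]
          · rw [if_neg hm, S_eq 0]
            · simp
            · intro j hj
              rw [idF_apply, if_neg (by omega), map_zero, smul_zero]
        have e2 : P1 (idF V) (g i) (-1) m 0 w = if m ≤ -1 then 0 else g i m w := by
          unfold P1
          by_cases hm : m ≤ -1
          · rw [if_pos hm, S_eq 0]
            · simp
            · intro j hj
              rw [idF_apply, if_neg (by omega), smul_zero]
          · rw [if_neg hm, S_eq (m.toNat + 1), Finset.sum_eq_single m.toNat]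
            · rw [hc, one_smul, idF_apply, if_pos (by omega)]
              congr 2
              omega
            · intro j _ hj
              rw [idF_apply, if_neg (by omega), smul_zero]
            · intro h
              simp at h
            · intro j hj
              rw [idF_apply, if_neg (by omega), smul_zero]
        rw [e1, e2]
        have e3 : (((-1 : ℤ).negOnePow : ℤˣ) : ℤ) = -1 := by
          rw [Int.negOnePow_odd _ (by decide)]
          rfl
        rw [e3]
        split_ifs <;> simp
      rwa [h3] at h2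
    exact he2 (g i) h1

end Pool.Agent.H16.VA
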