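import Pool.Agent.H16.VA.Targets

/-!
# Assembly
-/

set_option autoImplicit false

open Finset MvPolynomial

namespace Pool.Agent.H16.VA

/-- derivation version of `dd` -/
noncomputable def ddD : Derivation ℂ (Polynomial ℂ × Polynomial ℂ) (Polynomial ℂ × Polynomial ℂ) :=
  Derivation.mk'
    { toFun := dd
      map_add' := fun p q => by simp [dd]
      map_smul' := fun c p => by simp [dd] }
    (fun p q => by
      change dd (p * q) = p • dd q + q • dd p
      ext : 1
      · simp only [dd, Prod.fst_mul, Polynomial.derivative_mul, Prod.fst_add, smul_eq_mul]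
        ring
      · simp only [dd, Prod.snd_mul, Polynomial.derivative_mul, Prod.snd_add, smul_eq_mul]
        ring)

theorem ddD_apply (p : Polynomial ℂ × Polynomial ℂ) : ddD p = dd p := rfl

/-- the assembly -/
theorem final_of (hE : ExistStmt) (hAF : AFStmt) (hMO : ModelStmt) (hAS : AssocStmt)
    (hCF : CommStmt) (hC2 : C2Stmt) (hSI : SimpleStmt) (hCO : ConfStmt) (hSF : SFGStmt)
    (hRI : CoverStmt) (hLE : LeafStmt) (hTO : TopStmt) : FinalStmt := by
  obtain ⟨A, i1, i2, D, x, hnt, hx, hT, hdiag, hsim, ⟨F, hF⟩, ρ, hρs, hρk, hρd⟩ := hRI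
  obtain ⟨M⟩ := hMO hE hAF A D
  obtain ⟨P, π, hπ, hP1, hP2⟩ := hC2 hAS A D M (Polynomial ℂ × Polynomial ℂ) ρ ddD hρs hρk hρd
  exact ⟨MvPolynomial ℕ A, inferInstance, inferInstance, M.W,
    hSI A D M hnt ⟨x, hx⟩ hsim,
    ⟨_, hCO hAS hCF A D M x hx hT hdiag⟩,
    hSF A D M F hF, R2, inferInstance, inferInstance, P, π, hπ, hTO.2.2, hTO.2.1,
    hLE P hP1 hP2, hTO.1⟩

end Pool.Agent.H16.VA
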