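import Mathlib

/-!
# Fields (formal distributions with truncation) and their products
-/

set_option autoImplicit false

open Finset

namespace Pool.Agent.H16.VA

section sums

variable {V : Type*} [AddCommGroup V]

theorem S_eq {f : ℕ → V} (N : ℕ) (h : ∀ j, N ≤ j → f j = 0) :
    ∑ᶠ j, f j = ∑ j ∈ range N, f j := by
  apply finsum_eq_sum_of_support_subset
  intro j hj
  by_contra hc
  apply hj
  apply h
  simpa using hc

theorem S_fin {f : ℕ → V} (h : ∃ N, ∀ j, N ≤ j → f j = 0) : (Function.support f).Finite := by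
  obtain ⟨N, hN⟩ := h
  apply (range N).finite_toSet.subset
  intro j hj
  by_contra hc
  apply hj
  apply hN
  simpa using hc

theorem S_succ {f : ℕ → V} (h : ∃ N, ∀ j, N ≤ j → f j = 0) :
    ∑ᶠ j, f j = f 0 + ∑ᶠ j, f (j + 1) := by
  obtain ⟨N, hN⟩ := h
  rw [S_eq (N + 1) (fun j hj => hN j (by omega)), S_eq N (fun j hj => hN _ (by omega)),
    Finset.sum_range_succ']
  exact add_comm _ _

end sums

variable {V : Type*} [AddCommGroup V] [Module ℂ V]

/-- families of operators indexed by the integers (formal distributions) -/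
abbrev Fld (V : Type*) [AddCommGroup V] [Module ℂ V] := ℤ → Module.End ℂ V

/-- truncation -/
def IsFld (a : Fld V) : Prop := ∀ w, ∃ N : ℤ, ∀ n, N ≤ n → a n w = 0

/-- `(z-w)^N [a(z), b(w)] = 0` -/
def LocN (N : ℕ) (a b : Fld V) : Prop := ∀ (m k : ℤ) (w : V),
  ∑ j ∈ range (N + 1), ((-1 : ℤ) ^ j * (N.choose j : ℤ)) •
    (a (m + N - j) (b (k + j) w) - b (k + j) (a (m + N - j) w)) = 0

/-- mutual locality -/
def Loc (a b : Fld V) : Prop := ∃ N : ℕ, LocN N a b

/-- coefficient of `(z-w)^n a(z) b(w)` expanded in `|z| > |w|` -/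
noncomputable def P1 (a b : Fld V) (n m k : ℤ) (w : V) : V :=
  ∑ᶠ j : ℕ, ((-1 : ℤ) ^ j * Ring.choose n j) • a (m + n - j) (b (k + j) w)

/-- coefficients of `(z-w)^n a(z) b(w) - (-w+z)^n b(w) a(z)` -/
noncomputable def brA (a b : Fld V) (n m k : ℤ) (w : V) : V :=
  P1 a b n m k w - (n.negOnePow : ℤ) • P1 b a n k m w

theorem P1_fin {a b : Fld V} (hb : IsFld b) (n m k : ℤ) (w : V) :
    ∃ N, ∀ j : ℕ, N ≤ j → ((-1 : ℤ) ^ j * Ring.choose n j) • a (m + n - j) (b (k + j) w) = 0 := by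
  obtain ⟨N, hN⟩ := hb w
  refine ⟨(N - k).toNat, fun j hj => ?_⟩
  rw [hN (k + j) (by omega), map_zero, smul_zero]

theorem P1_zero (a b : Fld V) (m k : ℤ) (w : V) : P1 a b 0 m k w = a m (b k w) := by
  unfold P1
  rw [S_eq 1]
  · simp
  · intro j hj
    obtain ⟨i, rfl⟩ : ∃ i, j = i + 1 := ⟨j - 1, by omega⟩
    rw [Ring.choose_zero_succ, mul_zero, zero_smul]

theorem P1_succ {a b : Fld V} (hb : IsFld b) (n m k : ℤ) (w : V) :
    P1 a b (n + 1) m k w = P1 a b n (m + 1) k w - P1 a b n m (k + 1) w := by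
  unfold P1
  have h1 := P1_fin (a := a) hb n (m + 1) k w
  have h2 := P1_fin (a := a) hb n m (k + 1) w
  have h3 := P1_fin (a := a) hb (n + 1) m k w
  rw [S_succ h3, S_succ h1]
  have h1' := S_fin h1
  have h2' := S_fin h2
  have h3' := S_fin h3
  have h1s : (Function.support fun j : ℕ => ((-1 : ℤ) ^ (j + 1) * Ring.choose n (j + 1)) •
      a (m + 1 + n - ((j + 1 : ℕ) : ℤ)) (b (k + ((j + 1 : ℕ) : ℤ)) w)).Finite := by
    apply S_fin
    obtain ⟨N, hN⟩ := h1
    exact ⟨N, fun j hj => hN _ (by omega)⟩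
  have h2s : (Function.support fun j : ℕ => -(((-1 : ℤ) ^ j * Ring.choose n j) •
      a (m + n - (j : ℤ)) (b (k + 1 + (j : ℤ)) w))).Finite := by
    apply S_fin
    obtain ⟨N, hN⟩ := h2
    exact ⟨N, fun j hj => by rw [hN _ hj, neg_zero]⟩
  have key : (fun j : ℕ => ((-1 : ℤ) ^ (j + 1) * Ring.choose (n + 1) (j + 1)) •
      a (m + (n + 1) - ((j + 1 : ℕ) : ℤ)) (b (k + ((j + 1 : ℕ) : ℤ)) w)) =
      fun j : ℕ => ((-1 : ℤ) ^ (j + 1) * Ring.choose n (j + 1)) •
      a (m + 1 + n - ((j + 1 : ℕ) : ℤ)) (b (k + ((j + 1 : ℕ) : ℤ)) w) +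
      -(((-1 : ℤ) ^ j * Ring.choose n j) • a (m + n - (j : ℤ)) (b (k + 1 + (j : ℤ)) w)) := by
    funext j
    rw [Ring.choose_succ_succ]
    have e1 : m + (n + 1) - ((j + 1 : ℕ) : ℤ) = m + 1 + n - ((j + 1 : ℕ) : ℤ) := by ring
    have e2 : m + n - (j : ℤ) = m + 1 + n - ((j + 1 : ℕ) : ℤ) := by push_cast; ring
    have e3 : k + 1 + (j : ℤ) = k + ((j + 1 : ℕ) : ℤ) := by push_cast; ring
    rw [e1, e2, e3, mul_add, add_smul, ← neg_smul]
    rw [add_comm]
    congr 2
    ring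
  rw [key, finsum_add_distrib h1s h2s, finsum_neg_distrib]
  have e4 : m + (n + 1) - ((0 : ℕ) : ℤ) = m + 1 + n - ((0 : ℕ) : ℤ) := by ring
  rw [e4]
  simp only [pow_zero, Ring.choose_zero_right]
  abel

theorem brA_succ {a b : Fld V} (ha : IsFld a) (hb : IsFld b) (n m k : ℤ) (w : V) :
    brA a b (n + 1) m k w = brA a b n (m + 1) k w - brA a b n m (k + 1) w := by
  unfold brA
  rw [P1_succ hb, P1_succ ha, Int.negOnePow_succ]
  push_cast
  simp only [neg_smul, smul_sub]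
  abel

theorem brA_zero (a b : Fld V) (m k : ℤ) (w : V) :
    brA a b 0 m k w = a m (b k w) - b k (a m w) := by
  unfold brA
  rw [P1_zero, P1_zero]
  simp

theorem brA_nat {a b : Fld V} (ha : IsFld a) (hb : IsFld b) (N : ℕ) (m k : ℤ) (w : V) :
    brA a b N m k w = ∑ j ∈ range (N + 1), ((-1 : ℤ) ^ j * (N.choose j : ℤ)) •
      (a (m + N - j) (b (k + j) w) - b (k + j) (a (m + N - j) w)) := by
  induction N generalizing m k with
  | zero => simp [brA_zero]
  | succ N ih =>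
    push_cast
    rw [brA_succ ha hb, ih, ih]
    rw [Finset.sum_range_succ' _ (N + 1), Finset.sum_range_succ' _ N]
    rw [Finset.sum_range_succ (fun j => ((-1 : ℤ) ^ (j + 1) * ((N + 1).choose (j + 1) : ℤ)) •
      (a (m + (N + 1) - ((j + 1 : ℕ) : ℤ)) (b (k + ((j + 1 : ℕ) : ℤ)) w) -
        b (k + ((j + 1 : ℕ) : ℤ)) (a (m + (N + 1) - ((j + 1 : ℕ) : ℤ)) w))) N]
    rw [Finset.sum_range_succ (fun j => ((-1 : ℤ) ^ j * (N.choose j : ℤ)) •
      (a (m + N - j) (b (k + 1 + j) w) - b (k + 1 + j) (a (m + N - j) w))) N]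
    have e1 : ∀ j : ℕ, m + 1 + (N : ℤ) - ((j + 1 : ℕ) : ℤ) = m + N - j := by
      intro j; push_cast; ring
    have e2 : ∀ j : ℕ, m + ((N : ℤ) + 1) - ((j + 1 : ℕ) : ℤ) = m + N - j := by
      intro j; push_cast; ring
    have e3 : ∀ j : ℕ, k + ((j + 1 : ℕ) : ℤ) = k + 1 + j := by
      intro j; push_cast; ring
    simp only [e1, e2, e3]
    have e4 : m + ((N : ℤ) + 1) - ((0 : ℕ) : ℤ) = m + 1 + N - ((0 : ℕ) : ℤ) := by
      push_cast; ring
    rw [e4]
    have key : ∑ x ∈ range N, ((-1 : ℤ) ^ (x + 1) * ((N + 1).choose (x + 1) : ℤ)) •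
        (a (m + N - x) (b (k + 1 + x) w) - b (k + 1 + x) (a (m + N - x) w)) =
      ∑ x ∈ range N, ((-1 : ℤ) ^ (x + 1) * (N.choose (x + 1) : ℤ)) •
        (a (m + N - x) (b (k + 1 + x) w) - b (k + 1 + x) (a (m + N - x) w)) -
      ∑ x ∈ range N, ((-1 : ℤ) ^ x * (N.choose x : ℤ)) •
        (a (m + N - x) (b (k + 1 + x) w) - b (k + 1 + x) (a (m + N - x) w)) := by
      rw [← Finset.sum_sub_distrib]
      apply Finset.sum_congr rfl
      intro x _
      rw [← sub_smul, Nat.choose_succ_succ]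
      congr 1
      push_cast
      ring
    rw [key]
    simp only [Nat.choose_self, Nat.choose_zero_right, pow_zero, pow_succ]
    push_cast
    simp only [mul_neg, mul_one, neg_smul, one_smul]
    abel

theorem locN_iff {a b : Fld V} (ha : IsFld a) (hb : IsFld b) (N : ℕ) :
    LocN N a b ↔ ∀ m k w, brA a b N m k w = 0 := by
  unfold LocN
  simp only [brA_nat ha hb]

theorem brA_eq_zero_of_le {a b : Fld V} (ha : IsFld a) (hb : IsFld b) {N : ℕ} (h : LocN N a b)
    (n : ℤ) (hn : (N : ℤ) ≤ n) (m k : ℤ) (w : V) : brA a b n m k w = 0 := by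
  rw [locN_iff ha hb] at h
  induction n, hn using Int.leInduction generalizing m k with
  | base => exact h m k w
  | succ n _ ih => rw [brA_succ ha hb, ih, ih, sub_zero]

theorem LocN.mono {a b : Fld V} (ha : IsFld a) (hb : IsFld b) {N M : ℕ} (h : LocN N a b)
    (hNM : N ≤ M) : LocN M a b := by
  rw [locN_iff ha hb]
  intro m k w
  exact brA_eq_zero_of_le ha hb h M (by exact_mod_cast hNM) m k w

end Pool.Agent.H16.VA
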