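import Pool.Agent.H16.VA.Exist

/-!
# MO: the model
-/

set_option autoImplicit false

open Finset MvPolynomial

namespace Pool.Agent.H16.VA

variable {A : Type*} [CommRing A] [Algebra ℂ A]

omit [Algebra ℂ A] in
theorem ind {P : MvPolynomial ℕ A → Prop} (hC : ∀ b, P (C b)) (ha : ∀ u v, P u → P v → P (u + v))
    (hX : ∀ n v, P v → P (X n * v)) (v : MvPolynomial ℕ A) : P v := by
  induction v using MvPolynomial.induction_on with
  | C b => exact hC b
  | add u v hu hv => exact ha u v hu hv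
  | mul_X v n hv =>
    rw [mul_comm]
    exact hX n v hv

theorem absorb (r : ℤ) (l : ℕ) : Ring.choose (r - 1) l * r = (r - l) * Ring.choose r l := by
  have h1 := Ring.choose_smul_choose r (show 1 ≤ l + 1 by omega)
  have h2 := Ring.choose_smul_choose r (Nat.le_succ l)
  rw [Nat.choose_one_right, Ring.choose_one_right, show l + 1 - 1 = l by omega,
    nsmul_eq_mul] at h1
  rw [Nat.succ_eq_add_one, Nat.choose_succ_self_right, show l + 1 - l = 1 by omega,
    Ring.choose_one_right, nsmul_eq_mul] at h2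
  push_cast at h1 h2
  linear_combination h2 - h1

/-- multiplication by an element as a linear map -/
noncomputable def mulX (u : MvPolynomial ℕ A) : Module.End ℂ (MvPolynomial ℕ A) :=
  LinearMap.mulLeft ℂ u

/-- the field `β` -/
noncomputable def bf (D : DData A) : Fld (MvPolynomial ℕ A) := fun n =>
  if 0 ≤ n then ((mapDer (D.d n.toNat) :
    Derivation ℂ (MvPolynomial ℕ A) (MvPolynomial ℕ A)) : MvPolynomial ℕ A →ₗ[ℂ] MvPolynomial ℕ A)
  else mulX (X (-n - 1).toNat)

theorem bf_nonneg (D : DData A) (n : ℕ) (v : MvPolynomial ℕ A) :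
    bf D n v = mapDer (D.d n) v := by
  unfold bf
  rw [if_pos (by omega), Int.toNat_natCast]
  rfl

theorem bf_neg (D : DData A) (n : ℕ) (v : MvPolynomial ℕ A) :
    bf D (-(n : ℤ) - 1) v = X n * v := by
  unfold bf
  rw [if_neg (by omega)]
  have : (-(-(n : ℤ) - 1) - 1).toNat = n := by omega
  rw [this]
  rfl

/-- the translation operator -/
noncomputable def TB (D : DData A) : Derivation ℂ (MvPolynomial ℕ A) (MvPolynomial ℕ A) :=
  mapDer D.T + (mkDerivation A (fun n : ℕ => (((n + 1 : ℕ) : ℂ) • X (n + 1) :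
    MvPolynomial ℕ A))).restrictScalars ℂ

theorem TB_C (D : DData A) (a : A) : TB D (C a) = C (D.T a) := by
  change mapDer D.T (C a) + mkDerivation A (fun n : ℕ => (((n + 1 : ℕ) : ℂ) • X (n + 1) :
    MvPolynomial ℕ A)) (C a) = _
  rw [mapDer_C, derivation_C, add_zero]

theorem TB_X (D : DData A) (n : ℕ) : TB D (X n) = ((n + 1 : ℕ) : ℂ) • X (n + 1) := by
  change mapDer D.T (X n) + mkDerivation A (fun n : ℕ => (((n + 1 : ℕ) : ℂ) • X (n + 1) :
    MvPolynomial ℕ A)) (X n) = _
  rw [mapDer_X, mkDerivation_X, zero_add]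

theorem TB_mul (D : DData A) (u v : MvPolynomial ℕ A) : TB D (u * v) = TB D u * v + u * TB D v := by
  rw [Derivation.leibniz, smul_eq_mul, smul_eq_mul]
  ring

theorem mapDer_X_mul (E : Derivation ℂ A A) (n : ℕ) (v : MvPolynomial ℕ A) :
    mapDer E (X n * v) = X n * mapDer E v := by
  rw [Derivation.leibniz, mapDer_X, smul_eq_mul, smul_zero, add_zero]

theorem mapDer_smul_X_mul (E : Derivation ℂ A A) (c : ℂ) (n : ℕ) (v : MvPolynomial ℕ A) :
    mapDer E (c • X n * v) = c • X n * mapDer E v := by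
  rw [smul_mul_assoc, Derivation.map_smul, mapDer_X_mul, smul_mul_assoc]

/-- `T^(j) a` if `m = -j-1`, and `0` if `m ≥ 0` -/
noncomputable def e0 (D : DData A) (a : A) (m : ℤ) : A :=
  if m < 0 then D.Tj (-m - 1).toNat a else 0

theorem e0_neg (D : DData A) (a : A) (j : ℕ) : e0 D a (-(j : ℤ) - 1) = D.Tj j a := by
  unfold e0
  rw [if_pos (by omega)]
  congr 1
  omega

theorem e0_nonneg (D : DData A) (a : A) {m : ℤ} (hm : 0 ≤ m) : e0 D a m = 0 := by
  unfold e0
  rw [if_neg (by omega)]

theorem T_Tj (D : DData A) (j : ℕ) (a : A) : D.T (D.Tj j a) = ((j + 1 : ℕ) : ℂ) • D.Tj (j + 1) a := by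
  unfold DData.Tj
  rw [Derivation.map_smul, smul_smul, Function.iterate_succ_apply', Nat.factorial_succ]
  congr 1
  have : ((j + 1 : ℕ) : ℂ) ≠ 0 := by exact_mod_cast Nat.succ_ne_zero j
  have h2 : ((j.factorial : ℕ) : ℂ) ≠ 0 := by exact_mod_cast Nat.factorial_ne_zero j
  push_cast
  push_cast at this
  field_simp

theorem T_e0 (D : DData A) (a : A) (m : ℤ) : D.T (e0 D a m) = ((-m : ℤ) : ℂ) • e0 D a (m - 1) := by
  by_cases hm : m < 0
  · obtain ⟨j, rfl⟩ : ∃ j : ℕ, m = -(j : ℤ) - 1 := ⟨(-m - 1).toNat, by omega⟩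
    rw [e0_neg, T_Tj]
    have e1 : -(j : ℤ) - 1 - 1 = -((j + 1 : ℕ) : ℤ) - 1 := by push_cast; ring
    rw [e1, e0_neg]
    congr 1
    push_cast
    ring
  · rw [e0_nonneg D a (by omega), map_zero]
    by_cases h0 : m = 0
    · rw [h0]; simp
    · rw [e0_nonneg D a (by omega), smul_zero]

theorem Tj_zero (D : DData A) (a : A) : D.Tj 0 a = a := by
  simp [DData.Tj]

theorem e0_zero (D : DData A) (m : ℤ) : e0 D 0 m = 0 := by
  unfold e0 DData.Tj
  split_ifs
  · rw [iterate_map_zero, smul_zero]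
  · rfl

/-- base case of the commutator of `β` with `a` -/
theorem d_e0 (D : DData A) (i : ℕ) (a : A) {K : ℕ} (hK : ∀ k, K ≤ k → D.d k a = 0) (n : ℤ) :
    D.d i (e0 D a n) = ∑ k ∈ range K, ((Ring.choose (i : ℤ) k : ℤ) : ℂ) •
      e0 D (D.d k a) (i + n - k) := by
  by_cases hn : 0 ≤ n
  · rw [e0_nonneg D a hn, map_zero]
    symm
    apply Finset.sum_eq_zero
    intro k _
    by_cases hk : k ≤ i
    · rw [e0_nonneg D _ (by omega), smul_zero]
    · rw [Ring.choose_natCast, Nat.choose_eq_zero_of_lt (by omega)]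
      simp
  · obtain ⟨j, rfl⟩ : ∃ j : ℕ, n = -(j : ℤ) - 1 := ⟨(-n - 1).toNat, by omega⟩
    clear hn
    induction j generalizing i with
    | zero =>
      rw [e0_neg, Tj_zero]
      by_cases hi : i < K
      · rw [Finset.sum_eq_single i]
        · have e1 : (i : ℤ) + (-((0 : ℕ) : ℤ) - 1) - i = -((0 : ℕ) : ℤ) - 1 := by ring
          rw [e1, e0_neg, Tj_zero, Ring.choose_natCast, Nat.choose_self]
          simp
        · intro k _ hk
          by_cases hk' : k ≤ i
          · rw [e0_nonneg D _ (by push_cast; omega), smul_zero]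
          · rw [Ring.choose_natCast, Nat.choose_eq_zero_of_lt (by omega)]
            simp
        · intro h
          exact absurd (Finset.mem_range.mpr hi) h
      · rw [hK i (by omega)]
        symm
        apply Finset.sum_eq_zero
        intro k hk
        rw [Finset.mem_range] at hk
        rw [e0_nonneg D _ (by push_cast; omega), smul_zero]
    | succ j ih =>
      have hj : ((j + 1 : ℕ) : ℂ) ≠ 0 := by exact_mod_cast Nat.succ_ne_zero j
      have h1 : D.Tj (j + 1) a = (((j + 1 : ℕ) : ℂ))⁻¹ • D.T (D.Tj j a) := by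
        rw [T_Tj, smul_smul, inv_mul_cancel₀ hj, one_smul]
      have key : D.d i (D.T (D.Tj j a)) = D.T (D.d i (D.Tj j a)) +
          (i : ℂ) • ∑ k ∈ range K, ((Ring.choose ((i : ℤ) - 1) k : ℤ) : ℂ) •
            e0 D (D.d k a) ((i : ℤ) - 1 + (-(j : ℤ) - 1) - k) := by
        cases i with
        | zero => rw [D.dT0]; simp
        | succ i =>
          rw [D.dT]
          have h2 := ih i
          rw [e0_neg] at h2
          rw [h2]
          push_cast
          rw [add_sub_cancel_right]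
      rw [e0_neg, h1, Derivation.map_smul, key]
      have h3 := ih i
      rw [e0_neg] at h3
      rw [h3, map_sum, Finset.smul_sum (r := (i : ℂ)), ← Finset.sum_add_distrib, Finset.smul_sum]
      apply Finset.sum_congr rfl
      intro k _
      rw [Derivation.map_smul, T_e0]
      have e1 : (i : ℤ) + (-(j : ℤ) - 1) - k - 1 = (i : ℤ) + (-((j + 1 : ℕ) : ℤ) - 1) - k := by
        push_cast; ring
      have e2 : (i : ℤ) - 1 + (-(j : ℤ) - 1) - k = (i : ℤ) + (-((j + 1 : ℕ) : ℤ) - 1) - k := by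
        push_cast; ring
      rw [e1, e2, smul_smul, smul_smul, ← add_smul, smul_smul]
      congr 1
      have h4 := absorb (i : ℤ) k
      have h5 : ((Ring.choose ((i : ℤ) - 1) k : ℤ) : ℂ) * i =
          ((i : ℂ) - k) * ((Ring.choose (i : ℤ) k : ℤ) : ℂ) := by exact_mod_cast h4
      rw [inv_mul_eq_iff_eq_mul₀ hj]
      push_cast
      linear_combination h5

/-- iterated differences of binomial coefficients -/
theorem al_choose (l N : ℕ) (m k : ℤ) : al N (fun x _ => (Ring.choose x l : ℤ)) m k =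
    if N ≤ l then Ring.choose m (l - N) else 0 := by
  induction N generalizing m k with
  | zero => rw [al_zero]; simp
  | succ N ih =>
    rw [al_succ, ih, ih]
    by_cases h1 : N + 1 ≤ l
    · rw [if_pos (by omega), if_pos (by omega), if_pos h1]
      obtain ⟨q, hq⟩ : ∃ q, l - N = q + 1 := ⟨l - N - 1, by omega⟩
      rw [hq, Ring.choose_succ_succ, show l - (N + 1) = q by omega]
      ring
    · rw [if_neg h1]
      by_cases h2 : N ≤ l
      · rw [if_pos h2, if_pos h2, show l - N = 0 by omega]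
        simp
      · rw [if_neg h2, if_neg h2, sub_zero]

/-- the properties of the fields of the elements of `A` -/
structure AFp (D : DData A) (af : A →ₗ[ℂ] Fld (MvPolynomial ℕ A)) : Prop where
  h1 : ∀ a b (n : ℕ), af a (-(n : ℤ) - 1) (C b) = C (D.Tj n a * b)
  h2 : ∀ a b (n : ℕ), af a n (C b) = 0
  h3 : ∀ a (m : ℤ) (n : ℕ) v, af a m (X n * v) = X n * af a m v -
        ∑ᶠ k : ℕ, (Ring.choose (-(n : ℤ) - 1) k : ℤ) • af (D.d k a) (m - n - 1 - k) v
  h4 : ∀ a b m v, af a m (C b * v) = C b * af a m v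

section af

variable {D : DData A} {af : A →ₗ[ℂ] Fld (MvPolynomial ℕ A)} (H : AFp D af)

include H

theorem AFp.h12 (a b : A) (m : ℤ) : af a m (C b) = C (e0 D a m * b) := by
  by_cases hm : 0 ≤ m
  · rw [e0_nonneg D a hm, zero_mul, C_0]
    have := H.h2 a b m.toNat
    rwa [Int.toNat_of_nonneg hm] at this
  · obtain ⟨j, rfl⟩ : ∃ j : ℕ, m = -(j : ℤ) - 1 := ⟨(-m - 1).toNat, by omega⟩
    rw [H.h1, e0_neg]

omit H in
theorem af_zero (m : ℤ) (v : MvPolynomial ℕ A) : af 0 m v = 0 := by
  rw [map_zero]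
  rfl

theorem AFp.h3' (a : A) {K : ℕ} (hK : ∀ k, K ≤ k → D.d k a = 0) (m : ℤ) (n : ℕ)
    (v : MvPolynomial ℕ A) : af a m (X n * v) = X n * af a m v -
      ∑ k ∈ range K, (Ring.choose (-(n : ℤ) - 1) k : ℤ) • af (D.d k a) (m - n - 1 - k) v := by
  rw [H.h3, S_eq K]
  intro j hj
  rw [hK j hj, af_zero, smul_zero]

theorem AFp.isFld (a : A) : IsFld (af a) := by
  intro v
  induction v using ind generalizing a with
  | hC b =>
    refine ⟨0, fun n hn => ?_⟩
    rw [H.h12, e0_nonneg D a hn, zero_mul, C_0]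
  | ha u v hu hv =>
    obtain ⟨N1, h1⟩ := hu a
    obtain ⟨N2, h2⟩ := hv a
    refine ⟨max N1 N2, fun n hn => ?_⟩
    rw [map_add, h1 n (le_trans (le_max_left _ _) hn), h2 n (le_trans (le_max_right _ _) hn),
      add_zero]
  | hX p v hv =>
    obtain ⟨K, hK⟩ := D.fin a
    have h5 : ∃ M : ℤ, ∀ j : ℕ, j < K → ∀ q, M ≤ q → af (D.d j a) q v = 0 := by
      clear hK
      induction K with
      | zero => exact ⟨0, fun j hj => absurd hj (by omega)⟩
      | succ J ih =>
        obtain ⟨M, hM⟩ := ih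
        obtain ⟨M', hM'⟩ := hv (D.d J a)
        refine ⟨max M M', fun j hj q hq => ?_⟩
        rcases Nat.lt_succ_iff_lt_or_eq.mp hj with h | h
        · exact hM j h q (le_trans (le_max_left _ _) hq)
        · subst h
          exact hM' q (le_trans (le_max_right _ _) hq)
    obtain ⟨M, hM⟩ := h5
    obtain ⟨N, hN⟩ := hv a
    refine ⟨max N (M + p + 1 + K), fun n hn => ?_⟩
    have hn1 := le_trans (le_max_left _ _) hn
    have hn2 := le_trans (le_max_right _ _) hn
    rw [H.h3' a hK, hN n hn1, mul_zero, zero_sub, neg_eq_zero]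
    apply Finset.sum_eq_zero
    intro k hk
    rw [Finset.mem_range] at hk
    rw [hM k hk _ (by omega), smul_zero]

theorem AFp.comm (a b : A) (m n : ℤ) (v : MvPolynomial ℕ A) :
    af a m (af b n v) = af b n (af a m v) := by
  induction v using ind generalizing a b m n with
  | hC c =>
    rw [H.h12, H.h12, H.h12, H.h12]
    congr 1
    ring
  | ha u v hu hv => rw [map_add, map_add, hu, hv, map_add, map_add]
  | hX p v hv =>
    obtain ⟨K1, hK1⟩ := D.fin a
    obtain ⟨K2, hK2⟩ := D.fin b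
    rw [H.h3' b hK2, H.h3' a hK1, map_sub, map_sub, H.h3' a hK1, H.h3' b hK2, hv a b m n]
    rw [map_sum, map_sum]
    have e1 : ∀ k, (af a m) ((Ring.choose (-(p : ℤ) - 1) k : ℤ) • af (D.d k b) (n - p - 1 - k) v) =
        (Ring.choose (-(p : ℤ) - 1) k : ℤ) • af (D.d k b) (n - p - 1 - k) (af a m v) := by
      intro k
      rw [map_zsmul, hv a (D.d k b)]
    have e2 : ∀ k, (af b n) ((Ring.choose (-(p : ℤ) - 1) k : ℤ) • af (D.d k a) (m - p - 1 - k) v) =
        (Ring.choose (-(p : ℤ) - 1) k : ℤ) • af (D.d k a) (m - p - 1 - k) (af b n v) := by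
      intro k
      rw [map_zsmul, hv b (D.d k a)]
    simp only [e1, e2]
    abel

theorem AFp.bcomm (a : A) {K : ℕ} (hK : ∀ k, K ≤ k → D.d k a = 0) (i n : ℤ)
    (v : MvPolynomial ℕ A) : bf D i (af a n v) - af a n (bf D i v) =
      ∑ k ∈ range K, (Ring.choose i k : ℤ) • af (D.d k a) (i + n - k) v := by
  by_cases hi : 0 ≤ i
  · obtain ⟨i, rfl⟩ : ∃ j : ℕ, i = j := ⟨i.toNat, by omega⟩
    clear hi
    induction v using ind generalizing a n with
    | hC b =>
      rw [bf_nonneg, bf_nonneg, H.h12, mapDer_C, mapDer_C, H.h12, Derivation.leibniz,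
        d_e0 D i a hK, ← C_sub]
      rw [smul_eq_mul, smul_eq_mul, add_sub_cancel_left, Finset.mul_sum, map_sum]
      apply Finset.sum_congr rfl
      intro k _
      rw [H.h12, mul_smul_comm, Int.cast_smul_eq_zsmul, map_zsmul, mul_comm b]
    | ha u v hu hv =>
      have e1 := hu a hK n
      have e2 := hv a hK n
      simp only [map_add, smul_add, Finset.sum_add_distrib]
      rw [← e1, ← e2]
      abel
    | hX p v hv =>
      have hK' : ∀ l k, K ≤ k → D.d k (D.d l a) = 0 := by
        intro l k hk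
        rw [D.comm, hK k hk, map_zero]
      have e1 : bf D i (X p * v) = X p * bf D i v := by
        rw [bf_nonneg, bf_nonneg, mapDer_X_mul]
      have e2 : ∀ w, bf D i (X p * w) = X p * bf D i w := by
        intro w
        rw [bf_nonneg, bf_nonneg, mapDer_X_mul]
      rw [e1, H.h3' a hK, H.h3' a hK, map_sub, e2, map_sum]
      have e3 : ∀ l, bf D i ((Ring.choose (-(p : ℤ) - 1) l : ℤ) •
          af (D.d l a) (n - p - 1 - l) v) = (Ring.choose (-(p : ℤ) - 1) l : ℤ) •
          (af (D.d l a) (n - p - 1 - l) (bf D i v) + ∑ k ∈ range K,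
            (Ring.choose (i : ℤ) k : ℤ) • af (D.d k (D.d l a)) (i + (n - p - 1 - l) - k) v) := by
        intro l
        rw [map_zsmul]
        have := hv (D.d l a) (hK' l) (n - p - 1 - l)
        rw [sub_eq_iff_eq_add] at this
        rw [this, add_comm]
      simp only [e3]
      have e4 := hv a hK n
      rw [sub_eq_iff_eq_add] at e4
      rw [e4]
      have e5 : ∀ k, (Ring.choose (i : ℤ) k : ℤ) • af (D.d k a) (i + n - k) (X p * v) =
          X p * ((Ring.choose (i : ℤ) k : ℤ) • af (D.d k a) (i + n - k) v) -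
          ∑ l ∈ range K, (Ring.choose (-(p : ℤ) - 1) l : ℤ) • (Ring.choose (i : ℤ) k : ℤ) •
            af (D.d k (D.d l a)) (i + (n - p - 1 - l) - k) v := by
        intro k
        rw [H.h3' (D.d k a) (hK' k), smul_sub, mul_smul_comm, Finset.smul_sum]
        congr 1
        apply Finset.sum_congr rfl
        intro l _
        have e6 : (i : ℤ) + n - k - p - 1 - l = i + (n - p - 1 - l) - k := by ring
        rw [e6, smul_comm, D.comm l k]
      simp only [e5, smul_add, Finset.sum_add_distrib, Finset.sum_sub_distrib, mul_add,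
        Finset.smul_sum, Finset.mul_sum]
      rw [Finset.sum_comm (f := fun k l => (Ring.choose (-(p : ℤ) - 1) l : ℤ) •
        (Ring.choose (i : ℤ) k : ℤ) • af (D.d k (D.d l a)) (i + (n - p - 1 - l) - k) v)]
      abel
  · obtain ⟨p, rfl⟩ : ∃ j : ℕ, i = -(j : ℤ) - 1 := ⟨(-i - 1).toNat, by omega⟩
    rw [bf_neg, bf_neg, H.h3' a hK, sub_sub_cancel]
    apply Finset.sum_congr rfl
    intro k _
    have e7 : n - (p : ℤ) - 1 - k = -(p : ℤ) - 1 + n - k := by ring
    rw [e7]

theorem AFp.bloc (a : A) : Loc (bf D) (af a) := by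
  obtain ⟨K, hK⟩ := D.fin a
  refine ⟨K, fun m k w => ?_⟩
  have e1 : ∀ j : ℕ, ((-1 : ℤ) ^ j * (K.choose j : ℤ)) •
      (bf D (m + K - j) (af a (k + j) w) - af a (k + j) (bf D (m + K - j) w)) =
      ∑ l ∈ range K, (((-1 : ℤ) ^ j * (K.choose j : ℤ)) * Ring.choose (m + K - j) l) •
        af (D.d l a) (m + K + k - l) w := by
    intro j
    rw [H.bcomm a hK, Finset.smul_sum]
    apply Finset.sum_congr rfl
    intro l _
    rw [smul_smul]
    have e2 : m + K - j + (k + j) - l = m + K + k - l := by ring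
    rw [e2]
  rw [Finset.sum_congr rfl fun j _ => e1 j, Finset.sum_comm]
  apply Finset.sum_eq_zero
  intro l hl
  rw [Finset.mem_range] at hl
  rw [← Finset.sum_smul]
  have h5 := al_choose l K m k
  rw [if_neg (by omega)] at h5
  unfold al at h5
  simp only [smul_eq_mul] at h5
  rw [h5, zero_smul]

omit H in
theorem bb_comm (m n : ℤ) (v : MvPolynomial ℕ A) : bf D m (bf D n v) = bf D n (bf D m v) := by
  have key : ∀ (E : Derivation ℂ A A) (p : ℕ) (v : MvPolynomial ℕ A),
    mapDer E (X p * v) = X p * mapDer E v := mapDer_X_mul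
  rcases lt_or_ge m 0 with hm | hm
  · obtain ⟨i, rfl⟩ : ∃ j : ℕ, m = -(j : ℤ) - 1 := ⟨(-m - 1).toNat, by omega⟩
    rcases lt_or_ge n 0 with hn | hn
    · obtain ⟨j, rfl⟩ : ∃ j : ℕ, n = -(j : ℤ) - 1 := ⟨(-n - 1).toNat, by omega⟩
      rw [bf_neg, bf_neg, bf_neg, bf_neg]
      ring
    · obtain ⟨j, rfl⟩ : ∃ j : ℕ, n = j := ⟨n.toNat, by omega⟩
      rw [bf_nonneg, bf_nonneg, bf_neg, bf_neg, key]
  · obtain ⟨i, rfl⟩ : ∃ j : ℕ, m = j := ⟨m.toNat, by omega⟩
    rcases lt_or_ge n 0 with hn | hn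
    · obtain ⟨j, rfl⟩ : ∃ j : ℕ, n = -(j : ℤ) - 1 := ⟨(-n - 1).toNat, by omega⟩
      rw [bf_nonneg, bf_nonneg, bf_neg, bf_neg, key]
    · obtain ⟨j, rfl⟩ : ∃ j : ℕ, n = j := ⟨n.toNat, by omega⟩
      rw [bf_nonneg, bf_nonneg, bf_nonneg, bf_nonneg]
      induction v using ind with
      | hC b => rw [mapDer_C, mapDer_C, mapDer_C, mapDer_C, D.comm]
      | ha u v hu hv => simp only [map_add, hu, hv]
      | hX p v hv => simp only [key, hv]

omit H in
theorem loc_of_comm {V : Type*} [AddCommGroup V] [Module ℂ V] {a b : Fld V}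
    (h : ∀ m n v, a m (b n v) = b n (a m v)) : Loc a b := by
  refine ⟨0, fun m k w => ?_⟩
  apply Finset.sum_eq_zero
  intro j _
  rw [h, sub_self, smul_zero]

omit H in
theorem bf_isFld : IsFld (bf D) := by
  intro v
  induction v using ind with
  | hC b =>
    obtain ⟨K, hK⟩ := D.fin b
    refine ⟨K, fun n hn => ?_⟩
    obtain ⟨j, rfl⟩ : ∃ j : ℕ, n = j := ⟨n.toNat, by omega⟩
    rw [bf_nonneg, mapDer_C, hK j (by omega), C_0]
  | ha u v hu hv =>
    obtain ⟨N1, h1⟩ := hu
    obtain ⟨N2, h2⟩ := hv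
    refine ⟨max N1 N2, fun n hn => ?_⟩
    rw [map_add, h1 n (le_trans (le_max_left _ _) hn), h2 n (le_trans (le_max_right _ _) hn),
      add_zero]
  | hX p v hv =>
    obtain ⟨N, hN⟩ := hv
    refine ⟨max N 0, fun n hn => ?_⟩
    have hn1 := le_trans (le_max_left _ _) hn
    have hn2 := le_trans (le_max_right _ _) hn
    have h1 := hN n hn1
    obtain ⟨j, rfl⟩ : ∃ j : ℕ, n = j := ⟨n.toNat, by omega⟩
    rw [bf_nonneg] at h1 ⊢
    rw [mapDer_X_mul, h1, mul_zero]

omit H in
theorem bf_TCov : TCov ((TB D : Derivation ℂ (MvPolynomial ℕ A) (MvPolynomial ℕ A)) :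
    MvPolynomial ℕ A →ₗ[ℂ] MvPolynomial ℕ A) (bf D) := by
  intro n v
  change TB D (bf D n v) - bf D n (TB D v) = _
  rcases lt_or_ge n 0 with hn | hn
  · obtain ⟨j, rfl⟩ : ∃ j : ℕ, n = -(j : ℤ) - 1 := ⟨(-n - 1).toNat, by omega⟩
    have e1 : -(j : ℤ) - 1 - 1 = -((j + 1 : ℕ) : ℤ) - 1 := by push_cast; ring
    rw [bf_neg, bf_neg, e1, bf_neg, TB_mul, TB_X, add_sub_cancel_right, smul_mul_assoc]
    have e2 : -(-(j : ℤ) - 1) = ((j + 1 : ℕ) : ℤ) := by push_cast; ring
    rw [e2, Nat.cast_smul_eq_nsmul, natCast_zsmul]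
  · obtain ⟨j, rfl⟩ : ∃ j : ℕ, n = j := ⟨n.toNat, by omega⟩
    cases j with
    | zero =>
      rw [Nat.cast_zero, neg_zero, zero_smul, sub_eq_zero]
      have h1 : ∀ v, bf D (0 : ℤ) v = mapDer (D.d 0) v := fun v => bf_nonneg D 0 v
      rw [h1, h1]
      induction v using ind with
      | hC b => rw [mapDer_C, TB_C, TB_C, mapDer_C, D.dT0]
      | ha u v hu hv => simp only [map_add, hu, hv]
      | hX p v hv =>
        rw [mapDer_X_mul, TB_mul, TB_mul, map_add, mapDer_X_mul, TB_X, mapDer_smul_X_mul, hv]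
    | succ j =>
      have e1 : ((j + 1 : ℕ) : ℤ) - 1 = j := by push_cast; ring
      rw [e1, bf_nonneg, bf_nonneg, bf_nonneg]
      induction v using ind with
      | hC b =>
        rw [mapDer_C, TB_C, TB_C, mapDer_C, D.dT, mapDer_C, ← C_sub, sub_add_cancel_left,
          neg_smul, natCast_zsmul, Nat.cast_smul_eq_nsmul, C_neg, map_nsmul]
      | ha u v hu hv =>
        simp only [map_add, smul_add]
        rw [← hu, ← hv]
        abel
      | hX p v hv =>
        rw [mapDer_X_mul, TB_mul, TB_mul, map_add, mapDer_X_mul, TB_X, mapDer_smul_X_mul,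
          mapDer_X_mul, ← mul_smul_comm, ← hv]
        ring

theorem AFp.cov (a : A) : TCov ((TB D : Derivation ℂ (MvPolynomial ℕ A) (MvPolynomial ℕ A)) :
    MvPolynomial ℕ A →ₗ[ℂ] MvPolynomial ℕ A) (af a) := by
  intro n v
  change TB D (af a n v) - af a n (TB D v) = _
  induction v using ind generalizing a n with
  | hC b =>
    rw [H.h12, H.h12, TB_C, TB_C, H.h12, ← C_sub, Derivation.leibniz, T_e0, smul_eq_mul,
      smul_eq_mul, mul_smul_comm, add_sub_cancel_left, Int.cast_smul_eq_zsmul, map_zsmul,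
      mul_comm b]
  | ha u v hu hv =>
    simp only [map_add, smul_add]
    rw [← hu, ← hv]
    abel
  | hX p v hv =>
    obtain ⟨K, hK⟩ := D.fin a
    have e1 := hv a n
    rw [sub_eq_iff_eq_add] at e1
    rw [TB_mul, TB_X, map_add, smul_mul_assoc, map_smul, H.h3' a hK n p, H.h3' a hK n (p + 1),
      H.h3' a hK n p, H.h3' a hK (n - 1) p, map_sub, TB_mul, TB_X, e1, map_sum]
    have e2 : ∀ l, TB D ((Ring.choose (-(p : ℤ) - 1) l : ℤ) • af (D.d l a) (n - p - 1 - l) v) =
        (Ring.choose (-(p : ℤ) - 1) l : ℤ) • (af (D.d l a) (n - p - 1 - l) (TB D v)) +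
        ((Ring.choose (-(p : ℤ) - 1) l : ℤ) * (-(n - p - 1 - l))) •
          af (D.d l a) (n - p - 1 - l - 1) v := by
      intro l
      rw [map_zsmul]
      have := hv (D.d l a) (n - p - 1 - l)
      rw [sub_eq_iff_eq_add] at this
      rw [this, smul_add, smul_smul, add_comm]
    simp only [e2, Finset.sum_add_distrib]
    have e3 : ∀ l : ℕ, n - ((p + 1 : ℕ) : ℤ) - 1 - l = n - p - 1 - l - 1 := by
      intro l; push_cast; ring
    have e4 : ∀ l : ℕ, n - 1 - (p : ℤ) - 1 - l = n - p - 1 - l - 1 := by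
      intro l; ring
    simp only [e3, e4]
    have e5 : ∑ l ∈ range K, ((Ring.choose (-(p : ℤ) - 1) l : ℤ) * (-(n - p - 1 - l))) •
        af (D.d l a) (n - p - 1 - l - 1) v =
        (-n) • ∑ l ∈ range K, (Ring.choose (-(p : ℤ) - 1) l : ℤ) •
          af (D.d l a) (n - p - 1 - l - 1) v +
        ((p + 1 : ℕ) : ℂ) • ∑ l ∈ range K, (Ring.choose (-((p + 1 : ℕ) : ℤ) - 1) l : ℤ) •
          af (D.d l a) (n - p - 1 - l - 1) v := by
      rw [Nat.cast_smul_eq_nsmul, ← natCast_zsmul, Finset.smul_sum, Finset.smul_sum,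
        ← Finset.sum_add_distrib]
      apply Finset.sum_congr rfl
      intro l _
      rw [smul_smul, smul_smul, ← add_smul]
      congr 1
      have h6 := absorb (-(p : ℤ) - 1) l
      have e7 : -(p : ℤ) - 1 - 1 = -((p + 1 : ℕ) : ℤ) - 1 := by push_cast; ring
      rw [e7] at h6
      push_cast at h6 ⊢
      linear_combination h6
    rw [e5]
    simp only [smul_sub, mul_add, smul_mul_assoc, mul_smul_comm]
    module

end af

/-- MO -/
theorem model : ModelStmt := by
  intro hE hAF A _ _ D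
  obtain ⟨af, g1, g2, g3, g4⟩ := hAF A D
  have H : AFp D af := ⟨g1, g2, g3, g4⟩
  have hvac : ∀ (i : Option A) (n : ℤ), 0 ≤ n →
      (match i with | none => bf D | some a => af a : Fld (MvPolynomial ℕ A)) n 1 = 0 := by
    intro i n hn
    obtain ⟨j, rfl⟩ : ∃ j : ℕ, n = j := ⟨n.toNat, by omega⟩
    cases i with
    | none =>
      change bf D j 1 = 0
      rw [bf_nonneg, Derivation.map_one_eq_zero]
    | some a =>
      change af a j 1 = 0
      rw [← C_1, g2]
  obtain ⟨W, w1, w2, w3⟩ := hE (MvPolynomial ℕ A) 1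
    ((TB D : Derivation ℂ (MvPolynomial ℕ A) (MvPolynomial ℕ A)) :
      MvPolynomial ℕ A →ₗ[ℂ] MvPolynomial ℕ A) (Option A)
    (fun i => match i with | none => bf D | some a => af a)
    (by
      rintro (_ | a)
      · exact bf_isFld
      · exact H.isFld a)
    (by
      rintro (_ | a) (_ | b)
      · exact loc_of_comm bb_comm
      · exact H.bloc b
      · exact (H.bloc a).symm bf_isFld (H.isFld a)
      · exact loc_of_comm (H.comm a b))
    (Derivation.map_one_eq_zero _)
    (by
      rintro (_ | a)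
      · exact bf_TCov
      · exact H.cov a)
    hvac
    (by
      intro S h1 hS
      rw [eq_top_iff]
      intro v hv0
      clear hv0
      induction v using ind with
      | hC b =>
        have := hS (some b) (-1) 1 h1
        change af b (-1) 1 ∈ S at this
        have e1 : af b (-1) 1 = C b := by
          have := H.h1 b 1 0
          simp only [Nat.cast_zero, neg_zero, zero_sub, C_1, mul_one, Tj_zero] at this
          exact this
        rwa [e1] at this
      | ha u v hu hv => exact S.add_mem hu hv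
      | hX p v hv =>
        have := hS none (-(p : ℤ) - 1) v hv
        change bf D (-(p : ℤ) - 1) v ∈ S at this
        rwa [bf_neg] at this)
  have hb : W.Y (X 0) = bf D := by
    have := w3 none
    change W.Y (bf D (-1) 1) = bf D at this
    have e1 : bf D (-1) 1 = X 0 := by
      have := bf_neg D 0 1
      simpa using this
    rwa [e1] at this
  have ha : ∀ a, W.Y (C a) = af a := by
    intro a
    have := w3 (some a)
    change W.Y (af a (-1) 1) = af a at this
    have e1 : af a (-1) 1 = C a := by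
      have := H.h1 a 1 0
      simp only [Nat.cast_zero, neg_zero, zero_sub, C_1, mul_one, Tj_zero] at this
      exact this
    rwa [e1] at this
  exact ⟨{
    W := W
    vac := w1
    T_C := fun a => by rw [w2]; exact TB_C D a
    T_X := fun n => by rw [w2]; exact TB_X D n
    T_mul := fun u v => by rw [w2]; exact TB_mul D u v
    b_neg := fun n v => by rw [hb]; exact bf_neg D n v
    b_nonneg := fun n v => by rw [hb]; exact bf_nonneg D n v
    a_neg := fun a b n => by rw [ha]; exact g1 a b n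
    a_nonneg := fun a b n => by rw [ha]; exact g2 a b n
    a_rec := fun a m n v => by simp only [ha]; exact g3 a m n v
    a_lin := fun a b m v => by rw [ha]; exact g4 a b m v
    a_comm := fun a b m n v => by rw [ha, ha]; exact H.comm a b m n v }⟩

end Pool.Agent.H16.VA
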