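import Pool.Agent.H16.VA.Data
import Pool.Agent.H16.VA.Dong

/-!
# Targets of the VA modules
-/

set_option autoImplicit false

open Finset MvPolynomial

namespace Pool.Agent.H16.VA

/-- translation covariance of a field -/
def TCov {V : Type*} [AddCommGroup V] [Module ℂ V] (T : Module.End ℂ V) (a : Fld V) : Prop :=
  ∀ n v, T (a n v) - a n (T v) = (-n : ℤ) • a (n - 1) v

/-- E (helper16): existence theorem -/
def ExistStmt : Prop :=
  ∀ (V : Type) [AddCommGroup V] [Module ℂ V] (vac : V) (T : Module.End ℂ V) (ι : Type)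
    (g : ι → Fld V), (∀ i, IsFld (g i)) → (∀ i j, Loc (g i) (g j)) → T vac = 0 →
    (∀ i, TCov T (g i)) → (∀ i n, 0 ≤ n → g i n vac = 0) →
    (∀ S : Submodule ℂ V, vac ∈ S → (∀ i n, ∀ v ∈ S, g i n v ∈ S) → S = ⊤) →
    ∃ W : VertexAlgebra V, W.vac = vac ∧ W.T = T ∧ ∀ i, W.Y (g i (-1) vac) = g i

/-- AS (helper16): associativity -/
def AssocStmt : Prop :=
  ∀ (V : Type) [AddCommGroup V] [Module ℂ V] (W : VertexAlgebra V) (u v : V) (n : ℤ),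
    W.Y (W.Y u n v) = prodF (W.Y u) (W.Y v) (W.trunc u) (W.trunc v) n

/-- CF (helper16): commutator formula -/
def CommStmt : Prop :=
  ∀ (V : Type) [AddCommGroup V] [Module ℂ V] (W : VertexAlgebra V) (u v w : V) (m k : ℤ),
    W.Y u m (W.Y v k w) - W.Y v k (W.Y u m w) =
      ∑ᶠ j : ℕ, (Ring.choose m j : ℤ) • W.Y (W.Y u j v) (m + k - j) w

/-- AF: the fields of the elements of `A` on `A[β_0, β_1, ...]`. -/
def AFStmt : Prop :=
  ∀ (A : Type) [CommRing A] [Algebra ℂ A] (D : DData A),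
    ∃ af : A →ₗ[ℂ] Fld (MvPolynomial ℕ A),
      (∀ a b (n : ℕ), af a (-(n : ℤ) - 1) (C b) = C (D.Tj n a * b)) ∧
      (∀ a b (n : ℕ), af a n (C b) = 0) ∧
      (∀ a (m : ℤ) (n : ℕ) v, af a m (X n * v) = X n * af a m v -
        ∑ᶠ k : ℕ, (Ring.choose (-(n : ℤ) - 1) k : ℤ) • af (D.d k a) (m - n - 1 - k) v) ∧
      ∀ a b m v, af a m (C b * v) = C b * af a m v

/-- MO: the model, from E and AF. -/
def ModelStmt : Prop :=
  ExistStmt → AFStmt → ∀ (A : Type) [CommRing A] [Algebra ℂ A] (D : DData A), Nonempty (Model D)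

/-- C2: Zhu's algebra of a model. -/
def C2Stmt : Prop :=
  AssocStmt → ∀ (A : Type) [CommRing A] [Algebra ℂ A] (D : DData A) (M : Model D)
    (R0 : Type) [CommRing R0] [Algebra ℂ R0] (ρ : A →ₐ[ℂ] R0) (δ : Derivation ℂ R0 R0),
    Function.Surjective ρ → RingHom.ker ρ = Ideal.span (Set.range D.T) →
    (∀ a, ρ (D.d 0 a) = δ (ρ a)) →
    ∃ (P : PoissonStr (Polynomial R0)) (π : MvPolynomial ℕ A →ₗ[ℂ] Polynomial R0),
      M.W.IsC2Algebra P π ∧ (∀ r, P.br Polynomial.X (Polynomial.C r) = Polynomial.C (δ r)) ∧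
      ∀ r s, P.br (Polynomial.C r) (Polynomial.C s) = 0

/-- SI: simplicity of a model. -/
def SimpleStmt : Prop :=
  ∀ (A : Type) [CommRing A] [Algebra ℂ A] (D : DData A) (M : Model D), Nontrivial A →
    (∃ x : A, ∀ k, D.d k x = if k = 0 then 1 else 0) →
    (∀ J : Ideal A, (∀ k, ∀ a ∈ J, D.d k a ∈ J) → J = ⊥ ∨ J = ⊤) → M.W.IsSimpleVA

/-- CO: the conformal vector `2 β_0 T x + β_1 x`, from AS and CF. -/
def ConfStmt : Prop :=
  AssocStmt → CommStmt → ∀ (A : Type) [CommRing A] [Algebra ℂ A] (D : DData A) (M : Model D)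
    (x : A), (∀ k, D.d k x = if k = 0 then 1 else 0) →
    (∀ a, D.T a = ∑ᶠ j : ℕ, ((j : ℂ) + 1) • (D.Tj (j + 1) x * D.d j a)) →
    Submodule.span ℂ {a : A | ∃ n : ℤ,
      ∑ᶠ j : ℕ, ((j : ℂ) - 1) • (D.Tj j x * D.d j a) = (n : ℂ) • a} = ⊤ →
    M.W.IsConformalVector ((2 : ℂ) • (X 0 * C (D.T x)) + X 1 * C x) 26

/-- SF: strong finite generation. -/
def SFGStmt : Prop :=
  ∀ (A : Type) [CommRing A] [Algebra ℂ A] (D : DData A) (M : Model D) (F : Finset A),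
    (∀ S : Subalgebra ℂ A, (∀ a ∈ F, a ∈ S) → (∀ a ∈ S, D.T a ∈ S) → S = ⊤) →
    M.W.StronglyFG

/-- componentwise derivative on `ℂ[x] × ℂ[x]` -/
noncomputable def dd : (Polynomial ℂ × Polynomial ℂ) → (Polynomial ℂ × Polynomial ℂ) := fun p =>
  (Polynomial.derivative p.1, Polynomial.derivative p.2)

/-- RI: the etale double cover `s² = 1 + T x` of the jet algebra of the line:
`A = ℂ[s, 1/s][x_0, x_2, x_3, ...]`, `T x_0 = s² - 1`, `T s = x_2 / s`, `T x_k = (k+1) x_(k+1)`,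
`d 0 = ∂/∂x_0`, `d 1 = (1/2s) ∂/∂s`, `d k = ∂/∂x_k` for `k ≥ 2`; here `x = x_0`. -/
def CoverStmt : Prop :=
  ∃ (A : Type) (_ : CommRing A) (_ : Algebra ℂ A) (D : DData A) (x : A), Nontrivial A ∧
    (∀ k, D.d k x = if k = 0 then 1 else 0) ∧
    (∀ a, D.T a = ∑ᶠ j : ℕ, ((j : ℂ) + 1) • (D.Tj (j + 1) x * D.d j a)) ∧
    Submodule.span ℂ {a : A | ∃ n : ℤ,
      ∑ᶠ j : ℕ, ((j : ℂ) - 1) • (D.Tj j x * D.d j a) = (n : ℂ) • a} = ⊤ ∧
    (∀ J : Ideal A, (∀ k, ∀ a ∈ J, D.d k a ∈ J) → J = ⊥ ∨ J = ⊤) ∧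
    (∃ F : Finset A, ∀ S : Subalgebra ℂ A, (∀ a ∈ F, a ∈ S) → (∀ a ∈ S, D.T a ∈ S) → S = ⊤) ∧
    ∃ (ρ : A →ₐ[ℂ] Polynomial ℂ × Polynomial ℂ), Function.Surjective ρ ∧
      RingHom.ker ρ = Ideal.span (Set.range D.T) ∧ ∀ a, ρ (D.d 0 a) = dd (ρ a)

/-- the coordinate ring of two disjoint planes -/
abbrev R2 := Polynomial (Polynomial ℂ × Polynomial ℂ)

/-- LE: exactly two symplectic leaves. -/
def LeafStmt : Prop :=
  ∀ P : PoissonStr R2, (∀ r, P.br Polynomial.X (Polynomial.C r) = Polynomial.C (dd r)) →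
    (∀ r s, P.br (Polynomial.C r) (Polynomial.C s) = 0) → Nat.card P.Leaves = 2

/-- TO: topology and algebra of `R2`. -/
def TopStmt : Prop :=
  ¬ IrreducibleSpace (MaximalSpectrum R2) ∧ IsReduced R2 ∧ Algebra.FiniteType ℂ R2

/-- final statement -/
def FinalStmt : Prop :=
  ∃ (V : Type) (_ : AddCommGroup V) (_ : Module ℂ V) (W : VertexAlgebra V),
    W.IsSimpleVA ∧ (∃ ω, W.IsConformalVector ω 26) ∧ W.StronglyFG ∧
    ∃ (R : Type) (_ : CommRing R) (_ : Algebra ℂ R) (P : PoissonStr R) (π : V →ₗ[ℂ] R),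
      W.IsC2Algebra P π ∧ Algebra.FiniteType ℂ R ∧ IsReduced R ∧ Nat.card P.Leaves = 2 ∧
      ¬ IrreducibleSpace (MaximalSpectrum R)

end Pool.Agent.H16.VA
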